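import Pool.Agent.Lib.ANT.WeylE

/-!
# Exponential sums `∑ e(α/m)`

`recip_sum`: for every `C` there is `s` such that `|∑_{a < m ≤ b} e(α/m)| ≤ 3 M / K` for
`M ≤ a`, `b ≤ 2 M`, `2 ≤ K`, `K ^ s ≤ M`, `K ^ s M ≤ α ≤ M ^ C`.
-/

open Complex Polynomial

namespace Pool.Agent.Mos26
open Pool.Agent.ANT

/-- monotonicity in the exponent -/
lemma weylHyp_mono {d C C' : ℕ} (h : WeylHyp d C) (hC : C ≤ C') : WeylHyp d C' := by
  intro M hM P hP f hf hS
  obtain ⟨r, hr0, hr1, hr2⟩ := h M hM P hP f hf hS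
  have h1 : M ^ C ≤ M ^ C' := pow_le_pow_right₀ (by linarith) hC
  exact ⟨r, hr0, hr1.trans h1, fun j hj1 hj2 => (hr2 j hj1 hj2).trans (by gcongr)⟩

lemma weyl_all (D : ℕ) : ∃ W : ℕ, ∀ d ≤ D, WeylHyp d W := by
  choose C hC using weyl_inverse
  refine ⟨∑ d ∈ Finset.range (D+1), C d, fun d hd => weylHyp_mono (hC d) ?_⟩
  exact Finset.single_le_sum (f := C) (fun _ _ => Nat.zero_le _) (Finset.mem_range.2 (by omega))

/-- the Taylor polynomial of `α / (x + y)` in `y` -/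
noncomputable def tay (α x : ℝ) (j : ℕ) : ℝ[X] :=
  ∑ i ∈ Finset.range (j+1), monomial i ((-1) ^ i * α / x ^ (i+1))

lemma tay_natDegree (α x : ℝ) (j : ℕ) : (tay α x j).natDegree ≤ j := by
  unfold tay
  refine natDegree_sum_le_of_forall_le _ _ fun i hi => ?_
  exact (natDegree_monomial_le _).trans (by have := Finset.mem_range.1 hi; omega)

lemma tay_coeff (α x : ℝ) (j : ℕ) : (tay α x j).coeff j = (-1) ^ j * α / x ^ (j+1) := by
  unfold tay
  rw [finsetSum_coeff, Finset.sum_eq_single j]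
  · rw [coeff_monomial, if_pos rfl]
  · intro i _ hij
    rw [coeff_monomial, if_neg hij]
  · intro h
    exact absurd (Finset.mem_range.2 (Nat.lt_succ_self j)) h

lemma tay_eval (α x y : ℝ) (j : ℕ) :
    (tay α x j).eval y = ∑ i ∈ Finset.range (j+1), (-1) ^ i * α / x ^ (i+1) * y ^ i := by
  unfold tay
  rw [eval_finsetSum]
  exact Finset.sum_congr rfl fun i _ => eval_monomial

lemma tay_error {α x y : ℝ} (hx : 0 < x) (hy : 0 ≤ y) (j : ℕ) :
    α / (x + y) - (tay α x j).eval y = (-1) ^ (j+1) * α * y ^ (j+1) / (x ^ (j+1) * (x + y)) := by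
  have hxy : 0 < x + y := by linarith
  rw [tay_eval]
  induction j with
  | zero =>
    simp
    field_simp
    ring
  | succ j ih =>
    rw [Finset.sum_range_succ, ← sub_sub, ih]
    field_simp
    ring

lemma norm_ee_sub_le (a b : ℝ) : ‖ee a - ee b‖ ≤ 2 * Real.pi * |a - b| := by
  have h : ee a - ee b = ee b * (ee (a - b) - 1) := by
    rw [mul_sub, ← ee_add, mul_one]
    congr 2
    ring
  rw [h, norm_mul, norm_ee, one_mul]
  exact norm_ee_sub_one_le _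

/-- One block. -/
lemma block_bound {j W : ℕ} (hj : 1 ≤ j) (hW : WeylHyp j W) {K α x : ℝ} (hK : 2 ≤ K)
    (hx : 0 < x) (hα : 0 < α) {L : ℕ} (hL : 0 < L) (h1 : K ^ W * (α / x ^ (j+1)) < 1 / 2)
    (h2 : K ^ W / (L:ℝ) ^ j < α / x ^ (j+1))
    (h3 : 2 * Real.pi * (α * (L:ℝ) ^ (j+1) / x ^ (j+2)) ≤ 1 / K) :
    ‖∑ y ∈ Finset.range L, ee (α / (x + y))‖ ≤ 2 * L / K := by
  have hK0 : 0 < K := by linarith
  have hLR : (0:ℝ) < L := by exact_mod_cast hL
  have hdiff : ‖∑ y ∈ Finset.range L, ee (α / (x + y)) -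
      ∑ y ∈ Finset.range L, ee ((tay α x j).eval (y:ℝ))‖ ≤ L / K := by
    rw [← Finset.sum_sub_distrib]
    calc ‖∑ y ∈ Finset.range L, (ee (α / (x + y)) - ee ((tay α x j).eval (y:ℝ)))‖
        ≤ ∑ y ∈ Finset.range L, ‖ee (α / (x + y)) - ee ((tay α x j).eval (y:ℝ))‖ :=
          norm_sum_le _ _
      _ ≤ ∑ y ∈ Finset.range L, 1 / K := by
          refine Finset.sum_le_sum fun y hy => ?_
          have hyL : (y:ℝ) ≤ L := by exact_mod_cast (Finset.mem_range.1 hy).le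
          have hy0 : (0:ℝ) ≤ y := Nat.cast_nonneg _
          refine (norm_ee_sub_le _ _).trans (le_trans ?_ h3)
          refine mul_le_mul_of_nonneg_left ?_ (by positivity)
          rw [tay_error hx hy0, abs_div, abs_mul, abs_mul, abs_pow, abs_neg, abs_one, one_pow,
            one_mul, abs_of_pos hα, abs_of_nonneg (by positivity : (0:ℝ) ≤ y ^ (j+1)),
            abs_of_pos (by positivity : (0:ℝ) < x ^ (j+1) * (x + y))]
          have e : x ^ (j+2) ≤ x ^ (j+1) * (x + y) := by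
            rw [pow_succ x (j+1)]
            exact mul_le_mul_of_nonneg_left (by linarith) (by positivity)
          gcongr
      _ = L / K := by
          rw [Finset.sum_const, Finset.card_range, nsmul_eq_mul]
          ring
  have hpoly : ‖∑ y ∈ Finset.range L, ee ((tay α x j).eval (y:ℝ))‖ ≤ L / K := by
    by_contra hcon
    have hcon' := (not_le.1 hcon).le
    obtain ⟨r, hr0, hr1, hr2⟩ := hW K hK L hL (tay α x j) (tay_natDegree α x j) hcon'
    have h4 := hr2 j hj le_rfl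
    rw [tay_coeff] at h4
    have hrR : (1:ℝ) ≤ r := by exact_mod_cast hr0
    have h5 : |(r:ℝ) * ((-1) ^ j * α / x ^ (j+1))| = r * (α / x ^ (j+1)) := by
      rw [abs_mul, abs_div, abs_mul, abs_pow, abs_neg, abs_one, one_pow, one_mul, abs_of_pos hα,
        abs_of_pos (by positivity : (0:ℝ) < x ^ (j+1)), abs_of_nonneg (by positivity : (0:ℝ) ≤ r)]
    have hpos : 0 < α / x ^ (j+1) := by positivity
    have h6 : |(r:ℝ) * ((-1) ^ j * α / x ^ (j+1))| ≤ 1 / 2 := by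
      rw [h5]
      exact (mul_le_mul_of_nonneg_right hr1 hpos.le).trans h1.le
    have h7 := abs_le_nn_int_add 0 h6
    rw [Int.cast_zero, zero_add, h5] at h7
    have h8 : α / x ^ (j+1) ≤ r * (α / x ^ (j+1)) := le_mul_of_one_le_left hpos.le hrR
    linarith
  calc ‖∑ y ∈ Finset.range L, ee (α / (x + y))‖
      = ‖(∑ y ∈ Finset.range L, ee (α / (x + y)) -
          ∑ y ∈ Finset.range L, ee ((tay α x j).eval (y:ℝ))) +
          ∑ y ∈ Finset.range L, ee ((tay α x j).eval (y:ℝ))‖ := by rw [sub_add_cancel]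
    _ ≤ L / K + L / K := (norm_add_le _ _).trans (add_le_add hdiff hpoly)
    _ = 2 * L / K := by ring

/-- Splitting into blocks. -/
lemma split_blocks {g : ℕ → ℂ} (hg : ∀ m, ‖g m‖ ≤ 1) {L : ℕ} (hL : 0 < L) {K : ℝ} (hK : 0 < K)
    {A b : ℕ} (hblock : ∀ c, A ≤ c → c + L ≤ b →
      ‖∑ y ∈ Finset.range L, g (c + 1 + y)‖ ≤ 2 * L / K)
    (a : ℕ) (ha : A ≤ a) (hab : a ≤ b) :
    ‖∑ m ∈ Finset.Ioc a b, g m‖ ≤ (b - a : ℝ) * (2 / K) + L := by
  obtain ⟨t, ht⟩ : ∃ t, t = b - a := ⟨_, rfl⟩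
  induction t using Nat.strong_induction_on generalizing a with
  | _ t ih =>
    have hab' : (a:ℝ) ≤ b := by exact_mod_cast hab
    rcases lt_or_ge (b - a) L with h | h
    · have h1 : ‖∑ m ∈ Finset.Ioc a b, g m‖ ≤ (b - a : ℕ) := by
        calc ‖∑ m ∈ Finset.Ioc a b, g m‖ ≤ ∑ m ∈ Finset.Ioc a b, ‖g m‖ := norm_sum_le _ _
          _ ≤ ∑ m ∈ Finset.Ioc a b, (1:ℝ) := Finset.sum_le_sum fun m _ => hg m
          _ = (b - a : ℕ) := by rw [Finset.sum_const, Nat.card_Ioc, nsmul_eq_mul, mul_one]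
      have h2 : ((b - a : ℕ) : ℝ) ≤ L := by exact_mod_cast h.le
      have h3 : 0 ≤ (b - a : ℝ) * (2 / K) := by
        have : (0:ℝ) ≤ b - a := by linarith
        positivity
      linarith
    · have hle : a + L ≤ b := by omega
      have h1 : ∑ m ∈ Finset.Ioc a b, g m = ∑ y ∈ Finset.range L, g (a + 1 + y) +
          ∑ m ∈ Finset.Ioc (a + L) b, g m := by
        rw [← Finset.sum_Ioc_consecutive g (Nat.le_add_right a L) hle]
        congr 1
        have h2 : Finset.Ioc a (a + L) = Finset.Ico (a + 1) (a + 1 + L) := by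
          ext m
          rw [Finset.mem_Ioc, Finset.mem_Ico]
          omega
        rw [h2, Finset.sum_Ico_eq_sum_range, Nat.add_sub_cancel_left]
      rw [h1]
      refine (norm_add_le _ _).trans ?_
      have h2 := hblock a ha hle
      have h3 := ih (b - (a + L)) (by omega) (a + L) (by omega) hle rfl
      push_cast at h3
      have e : (b - a : ℝ) * (2 / K) = 2 * L / K + (b - (a + L) : ℝ) * (2 / K) := by ring
      linarith

/-- **Sums of `e(α/m)`.** -/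
theorem recip_sum (C : ℕ) : ∃ s : ℕ, ∀ K : ℝ, 2 ≤ K → ∀ M : ℕ, K ^ s ≤ M → ∀ α : ℝ,
    M * K ^ s ≤ α → α ≤ (M:ℝ) ^ C → ∀ a b : ℕ, M ≤ a → a ≤ b → b ≤ 2 * M →
    ‖∑ m ∈ Finset.Ioc a b, ee (α / m)‖ ≤ 3 * (M / K) := by
  obtain ⟨W, hW⟩ := weyl_all (C + 1)
  refine ⟨4 * W + 5 * C + 30, fun K hK M hKM α hα1 hα2 a b hMa hab hb => ?_⟩
  obtain ⟨s, hs⟩ : ∃ s, s = 4 * W + 5 * C + 30 := ⟨_, rfl⟩
  rw [← hs] at hKM hα1
  have hK0 : 0 < K := by linarith
  have hK1 : 1 ≤ K := by linarith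
  have hKs : 1 ≤ K ^ s := one_le_pow₀ hK1
  have hM0 : (0:ℝ) < M := lt_of_lt_of_le (by positivity) hKM
  have hM1 : (1:ℝ) ≤ M := hKs.trans hKM
  have hα : 0 < α := lt_of_lt_of_le (by positivity) hα1
  have h2W : (2:ℝ) * K ^ W < M := by
    refine lt_of_lt_of_le ?_ hKM
    calc (2:ℝ) * K ^ W ≤ K * K ^ W := by gcongr
      _ = K ^ (W + 1) := by ring
      _ < K ^ s := pow_lt_pow_right₀ (by linarith) (by omega)
  -- choice of the degree
  have hex : ∃ i, 1 ≤ i ∧ 2 * K ^ W * α < (M:ℝ) ^ (i+1) := by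
    refine ⟨C + 1, by omega, ?_⟩
    calc 2 * K ^ W * α ≤ 2 * K ^ W * (M:ℝ) ^ C := by gcongr
      _ < M * (M:ℝ) ^ C := by gcongr
      _ = (M:ℝ) ^ (C + 1) := by ring
      _ ≤ (M:ℝ) ^ (C + 1 + 1) := pow_le_pow_right₀ hM1 (by omega)
  classical
  obtain ⟨j, hj⟩ : ∃ j, j = Nat.find hex := ⟨_, rfl⟩
  have hspec := Nat.find_spec hex
  rw [← hj] at hspec
  obtain ⟨hj1, hjα⟩ := hspec
  have hjC : j ≤ C + 1 := by
    rw [hj]
    refine Nat.find_min' hex ⟨by omega, ?_⟩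
    calc 2 * K ^ W * α ≤ 2 * K ^ W * (M:ℝ) ^ C := by gcongr
      _ < M * (M:ℝ) ^ C := by gcongr
      _ = (M:ℝ) ^ (C + 1) := by ring
      _ ≤ (M:ℝ) ^ (C + 1 + 1) := pow_le_pow_right₀ hM1 (by omega)
  have hmin : 2 ≤ j → (M:ℝ) ^ j ≤ 2 * K ^ W * α := by
    intro hj2
    by_contra hcon
    have h1 := Nat.find_min hex (m := j - 1) (by omega)
    apply h1
    refine ⟨by omega, ?_⟩
    rw [show j - 1 + 1 = j by omega]
    exact not_le.1 hcon
  -- the length of the blocks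
  set R : ℝ := K ^ W * (2 * M) ^ (j+1) / α with hR
  have hR0 : 0 < R := by positivity
  have hR1 : 1 < R := by
    rw [hR, lt_div_iff₀ hα, one_mul]
    have h1 : α ≤ K ^ W * α := le_mul_of_one_le_left hα.le (one_le_pow₀ hK1)
    have h2 : 2 * (K ^ W * α) < (M:ℝ) ^ (j+1) := by linarith
    have h3 : (M:ℝ) ^ (j+1) ≤ K ^ W * (2 * M) ^ (j+1) := by
      calc (M:ℝ) ^ (j+1) = 1 * M ^ (j+1) := by ring
        _ ≤ K ^ W * (2 * M) ^ (j+1) := by
          gcongr
          · exact one_le_pow₀ hK1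
          · linarith
    linarith
  have hexL : ∃ L : ℕ, R < (L:ℝ) ^ j := by
    obtain ⟨L, hL⟩ := exists_nat_gt R
    refine ⟨L, hL.trans_le ?_⟩
    have hL1 : (1:ℝ) ≤ L := (hR1.trans hL).le
    calc (L:ℝ) = (L:ℝ) ^ 1 := by ring
      _ ≤ (L:ℝ) ^ j := pow_le_pow_right₀ hL1 hj1
  obtain ⟨L, hLdef⟩ : ∃ L, L = Nat.find hexL := ⟨_, rfl⟩
  have hLspec := Nat.find_spec hexL
  rw [← hLdef] at hLspec
  have hL2 : 2 ≤ L := by
    by_contra hcon
    interval_cases L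
    · rw [Nat.cast_zero, zero_pow (by omega)] at hLspec
      linarith
    · rw [Nat.cast_one, one_pow] at hLspec
      linarith
  have hLmin : ((L - 1 : ℕ) : ℝ) ^ j ≤ R := by
    have h1 := Nat.find_min hexL (m := L - 1) (by omega)
    exact not_lt.1 h1
  have hLR : (2:ℝ) ≤ L := by exact_mod_cast hL2
  have hL1R : (L:ℝ) ≤ 2 * ((L - 1 : ℕ) : ℝ) := by
    have : L ≤ 2 * (L - 1) := by omega
    exact_mod_cast this
  have hLm1 : (1:ℝ) ≤ ((L - 1 : ℕ) : ℝ) := by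
    have : 1 ≤ L - 1 := by omega
    exact_mod_cast this
  have hLj : (L:ℝ) ^ j ≤ 2 ^ j * R := by
    calc (L:ℝ) ^ j ≤ (2 * ((L - 1 : ℕ) : ℝ)) ^ j := by gcongr
      _ = 2 ^ j * ((L - 1 : ℕ) : ℝ) ^ j := by rw [mul_pow]
      _ ≤ 2 ^ j * R := by gcongr
  -- the main inequality for the length
  have hmain : 8 * 2 ^ (2 * j + 1) * K ^ (W + 1) * L ≤ M := by
    rcases Nat.lt_or_ge j 2 with hjlt | hjge
    · have hj' : j = 1 := by omega
      subst hj'
      have h1 : (L:ℝ) ≤ 2 * R := by simpa using hLj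
      have h2 : R ≤ 4 * K ^ W * M / K ^ s := by
        rw [hR, div_le_div_iff₀ hα (by positivity)]
        calc K ^ W * (2 * M) ^ (1 + 1) * K ^ s = 4 * K ^ W * M * (M * K ^ s) := by ring
          _ ≤ 4 * K ^ W * M * α := by gcongr
      have h3 : (2:ℝ) ^ 9 ≤ K ^ 9 := pow_le_pow_left₀ (by norm_num) hK 9
      calc 8 * 2 ^ (2 * 1 + 1) * K ^ (W + 1) * L ≤
          8 * 2 ^ (2 * 1 + 1) * K ^ (W + 1) * (2 * (4 * K ^ W * M / K ^ s)) := by
            have := h1.trans (mul_le_mul_of_nonneg_left h2 (by norm_num : (0:ℝ) ≤ 2))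
            gcongr
        _ = 2 ^ 9 * K ^ (2 * W + 1) * M / K ^ s := by ring
        _ ≤ K ^ 9 * K ^ (2 * W + 1) * M / K ^ s := by gcongr
        _ = K ^ (2 * W + 10) * M / K ^ s := by ring
        _ ≤ K ^ s * M / K ^ s := by
            have : K ^ (2 * W + 10) ≤ K ^ s := pow_le_pow_right₀ hK1 (by omega)
            gcongr
        _ = M := by field_simp
    · have h1 : R ≤ 2 ^ (j+2) * K ^ (2 * W) * M := by
        rw [hR, div_le_iff₀ hα]
        calc K ^ W * (2 * M) ^ (j+1) = 2 ^ (j+1) * K ^ W * M * (M:ℝ) ^ j := by ring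
          _ ≤ 2 ^ (j+1) * K ^ W * M * (2 * K ^ W * α) := by
            have := hmin hjge
            gcongr
          _ = 2 ^ (j+2) * K ^ (2 * W) * M * α := by ring
      have h2 : (L:ℝ) ^ 2 ≤ 4 * R := by
        calc (L:ℝ) ^ 2 ≤ (2 * ((L - 1 : ℕ) : ℝ)) ^ 2 := by gcongr
          _ = 4 * ((L - 1 : ℕ) : ℝ) ^ 2 := by ring
          _ ≤ 4 * ((L - 1 : ℕ) : ℝ) ^ j := by
            have := pow_le_pow_right₀ hLm1 hjge
            gcongr
          _ ≤ 4 * R := by gcongr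
      have h3 : (8 * 2 ^ (2 * j + 1) * K ^ (W + 1) * L) ^ 2 ≤ (M:ℝ) ^ 2 := by
        calc (8 * 2 ^ (2 * j + 1) * K ^ (W + 1) * L) ^ 2
            = 2 ^ (4 * j + 8) * K ^ (2 * W + 2) * (L:ℝ) ^ 2 := by ring
          _ ≤ 2 ^ (4 * j + 8) * K ^ (2 * W + 2) * (4 * (2 ^ (j+2) * K ^ (2 * W) * M)) := by
            have := h2.trans (mul_le_mul_of_nonneg_left h1 (by norm_num : (0:ℝ) ≤ 4))
            gcongr
          _ = 2 ^ (5 * j + 12) * K ^ (4 * W + 2) * M := by ring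
          _ ≤ K ^ (5 * j + 12) * K ^ (4 * W + 2) * M := by gcongr
          _ = K ^ (5 * j + 4 * W + 14) * M := by ring
          _ ≤ K ^ s * M := by
            have : K ^ (5 * j + 4 * W + 14) ≤ K ^ s := pow_le_pow_right₀ hK1 (by omega)
            gcongr
          _ ≤ M * M := by gcongr
          _ = (M:ℝ) ^ 2 := by ring
      exact (pow_le_pow_iff_left₀ (by positivity) hM0.le (by norm_num)).1 h3
  -- the blocks
  have hblock : ∀ c, M ≤ c → c + L ≤ b →
      ‖∑ y ∈ Finset.range L, ee (α / ((c + 1 + y : ℕ) : ℝ))‖ ≤ 2 * L / K := by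
    intro c hMc hcb
    have hx : (0:ℝ) < ((c + 1 : ℕ) : ℝ) := by positivity
    have hxM : (M:ℝ) ≤ ((c + 1 : ℕ) : ℝ) := by exact_mod_cast (by omega : M ≤ c + 1)
    have hx2M : ((c + 1 : ℕ) : ℝ) ≤ 2 * M := by exact_mod_cast (by omega : c + 1 ≤ 2 * M)
    have hb := block_bound hj1 (hW j hjC) hK hx hα (L := L) (by omega) ?_ ?_ ?_
    · refine le_of_eq_of_le ?_ hb
      congr 1
      refine Finset.sum_congr rfl fun y _ => ?_
      push_cast
      rfl
    · -- coefficient small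
      have h1 : α / ((c + 1 : ℕ) : ℝ) ^ (j+1) ≤ α / (M:ℝ) ^ (j+1) := by gcongr
      have h2 : K ^ W * (α / (M:ℝ) ^ (j+1)) < 1 / 2 := by
        rw [← mul_div_assoc, div_lt_iff₀ (by positivity)]
        linarith
      exact lt_of_le_of_lt (mul_le_mul_of_nonneg_left h1 (by positivity)) h2
    · -- coefficient large
      have h1 : α / (2 * M:ℝ) ^ (j+1) ≤ α / ((c + 1 : ℕ) : ℝ) ^ (j+1) := by gcongr
      refine lt_of_lt_of_le ?_ h1
      rw [div_lt_div_iff₀ (by positivity) (by positivity)]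
      rw [hR, div_lt_iff₀ hα] at hLspec
      linarith
    · -- error
      have h1 : α * (L:ℝ) ^ (j+1) / ((c + 1 : ℕ) : ℝ) ^ (j+2) ≤
          α * (L:ℝ) ^ (j+1) / (M:ℝ) ^ (j+2) := by gcongr
      have h2 : α * (L:ℝ) ^ j ≤ 2 ^ j * (K ^ W * (2 * M) ^ (j+1)) := by
        calc α * (L:ℝ) ^ j ≤ α * (2 ^ j * R) := by gcongr
          _ = 2 ^ j * (K ^ W * (2 * M) ^ (j+1)) := by
            rw [hR]
            field_simp
      have hπ : 2 * Real.pi ≤ 8 := by linarith [Real.pi_le_four]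
      calc 2 * Real.pi * (α * (L:ℝ) ^ (j+1) / ((c + 1 : ℕ) : ℝ) ^ (j+2))
          ≤ 8 * (α * (L:ℝ) ^ (j+1) / (M:ℝ) ^ (j+2)) := by gcongr
        _ = 8 * (α * (L:ℝ) ^ j * L / (M:ℝ) ^ (j+2)) := by ring
        _ ≤ 8 * (2 ^ j * (K ^ W * (2 * M) ^ (j+1)) * L / (M:ℝ) ^ (j+2)) := by gcongr
        _ = 8 * 2 ^ (2 * j + 1) * K ^ (W + 1) * L / (K * M) := by
            field_simp
            ring
        _ ≤ M / (K * M) := by gcongr
        _ = 1 / K := by field_simp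
  have hfin := split_blocks (g := fun m => ee (α / (m:ℝ))) (fun m => (norm_ee _).le)
    (L := L) (by omega) hK0 hblock a hMa hab
  refine hfin.trans ?_
  have h1 : (b - a : ℝ) ≤ M := by
    have : (b:ℝ) ≤ 2 * M := by exact_mod_cast hb
    have h2 : (M:ℝ) ≤ a := by exact_mod_cast hMa
    linarith
  have h2 : (L:ℝ) ≤ M / K := by
    rw [le_div_iff₀ hK0]
    refine le_trans ?_ hmain
    have h3 : (1:ℝ) ≤ 8 * 2 ^ (2 * j + 1) := by
      have : (1:ℝ) ≤ 2 ^ (2 * j + 1) := one_le_pow₀ (by norm_num)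
      linarith
    have h4 : K ≤ K ^ (W + 1) := by
      calc K = K ^ 1 := by ring
        _ ≤ K ^ (W + 1) := pow_le_pow_right₀ hK1 (by omega)
    calc (L:ℝ) * K = 1 * K * L := by ring
      _ ≤ 8 * 2 ^ (2 * j + 1) * K ^ (W + 1) * L := by gcongr
  calc (b - a : ℝ) * (2 / K) + L ≤ M * (2 / K) + M / K := by gcongr
    _ = 3 * (M / K) := by ring

end Pool.Agent.Mos26
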