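import Pool.Agent.Mos26.Upper
import Pool.Agent.Lib.ANT.SW

/-!
# Primes `p ≡ a (mod q)`, `p > k`, dividing `binom(n, k)` for `2 k ≤ n ≤ k ^ C`
-/

open Complex Finset Nat Filter Topology

namespace Pool.Agent.Mos26
open Pool.Agent.ANT Pool.Agent.StableX

/-- `p` divides `binom(n, k)` if `p > k` divides one of `n, n - 1, …, n - k + 1`. -/
lemma dvd_choose {p n k : ℕ} (hp : p.Prime) (hkp : k < p) (h : n % p < k) :
    p ∣ n.choose k := by
  have h1 : p ∣ n.descFactorial k := by
    rw [Nat.descFactorial_eq_prod_range]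
    refine (Dvd.intro (n / p) ?_ : p ∣ n - n % p).trans
      (Finset.dvd_prod_of_mem (fun i => n - i) (mem_range.2 h))
    have := Nat.div_add_mod n p
    omega
  rw [Nat.descFactorial_eq_factorial_mul_choose] at h1
  rcases (Nat.Prime.dvd_mul hp).1 h1 with h2 | h2
  · exact absurd ((Nat.Prime.dvd_factorial hp).1 h2) (not_le.2 hkp)
  · exact h2

/-- The range `2 k ≤ n ≤ k (log k) ^ A`. -/
lemma range_small (q : ℕ) [NeZero q] (a : ZMod q) (ha : IsUnit a) (A : ℕ) :
    ∀ᶠ k : ℕ in atTop, ∀ n : ℕ, 2 * k ≤ n → (n:ℝ) ≤ k * Real.log k ^ A →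
      ∃ S : Finset ℕ, (k:ℝ) / (4 * q.totient * Real.log k) ≤ (S.card : ℝ) ∧
        ∀ p ∈ S, p.Prime ∧ (p : ZMod q) = a ∧ k < p ∧ n % p < k := by
  obtain ⟨C1, hC1, hθ⟩ := theta_ap (A + 1) (show (0:ℝ) < 1 by norm_num)
  have hφ : (0:ℝ) < q.totient := by
    exact_mod_cast Nat.totient_pos.mpr (Nat.pos_of_ne_zero (NeZero.ne q))
  have hlog : Tendsto (fun k : ℕ => Real.log (k:ℝ)) atTop atTop :=
    Real.tendsto_log_atTop.comp tendsto_natCast_atTop_atTop
  have hq : (0:ℝ) < q := by exact_mod_cast Nat.pos_of_ne_zero (NeZero.ne q)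
  have hLA : ∀ᶠ k : ℕ in atTop, Real.log (k:ℝ) ^ A ≤ k := by
    have h1 : ∀ᶠ x : ℝ in atTop, ‖Real.log x ^ A‖ ≤ 1 * ‖x‖ :=
      Real.isLittleO_pow_log_id_atTop.bound one_pos
    filter_upwards [tendsto_natCast_atTop_atTop.eventually h1, hlog.eventually_ge_atTop 0]
      with k hk hk0
    rwa [one_mul, Real.norm_eq_abs, Real.norm_eq_abs, abs_of_nonneg (by positivity),
      abs_of_nonneg (Nat.cast_nonneg k)] at hk
  filter_upwards [hlog.eventually_gt_atTop (4 * (C1 * q) * q.totient),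
    hlog.eventually_gt_atTop 0, eventually_ge_atTop 3, hLA] with k hk hk0 hk3 hkA n hn hnk
  have hk0' : (0:ℝ) < k := by exact_mod_cast (by omega : 0 < k)
  have hb : ∀ x : ℕ, k ≤ x → x ≤ n →
      |∑ p ∈ (Finset.Icc 1 x).filter (fun p : ℕ => p.Prime ∧ (p : ZMod q) = a), Real.log p -
        (x:ℝ) / q.totient| ≤ C1 * q * (n / Real.log k ^ (A+1)) := by
    intro x hx hxn
    have h1 := hθ q a ha (x:ℝ) (by exact_mod_cast hk3.trans hx)
    rw [Nat.floor_natCast, Real.rpow_one] at h1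
    refine h1.trans ?_
    have h2 : Real.log k ≤ Real.log x := Real.log_le_log hk0' (by exact_mod_cast hx)
    have h3 : (x:ℝ) ≤ n := by exact_mod_cast hxn
    rw [mul_div_assoc]
    gcongr
  have h1 := hb n (by omega) le_rfl
  have h2 := hb (n - k) (by omega) (by omega)
  rw [Nat.cast_sub (by omega)] at h2
  -- the difference
  have hsub : (Finset.Icc 1 n).filter (fun p : ℕ => p.Prime ∧ (p : ZMod q) = a) =
      (Finset.Icc 1 (n - k)).filter (fun p : ℕ => p.Prime ∧ (p : ZMod q) = a) ∪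
      (Finset.Ioc (n - k) n).filter (fun p : ℕ => p.Prime ∧ (p : ZMod q) = a) := by
    rw [← Finset.filter_union]
    congr 1
    ext m
    simp only [mem_union, mem_Icc, mem_Ioc]
    omega
  have hdisj : Disjoint ((Finset.Icc 1 (n - k)).filter (fun p : ℕ => p.Prime ∧ (p : ZMod q) = a))
      ((Finset.Ioc (n - k) n).filter (fun p : ℕ => p.Prime ∧ (p : ZMod q) = a)) := by
    rw [Finset.disjoint_left]
    intro m hm hm'
    have := (mem_Icc.1 (mem_filter.1 hm).1).2
    have := (mem_Ioc.1 (mem_filter.1 hm').1).1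
    omega
  rw [hsub, Finset.sum_union hdisj] at h1
  have herr : 2 * (C1 * q * (n / Real.log k ^ (A+1))) ≤ k / (2 * q.totient) := by
    have h3 : (n:ℝ) / Real.log k ^ (A+1) ≤ k / Real.log k := by
      rw [div_le_div_iff₀ (by positivity) hk0]
      calc (n:ℝ) * Real.log k ≤ k * Real.log k ^ A * Real.log k := by gcongr
        _ = k * Real.log k ^ (A+1) := by ring
    calc 2 * (C1 * q * (n / Real.log k ^ (A+1))) ≤ 2 * (C1 * q * (k / Real.log k)) := by gcongr
      _ ≤ k / (2 * q.totient) := by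
        rw [le_div_iff₀ (by positivity)]
        calc 2 * (C1 * q * (k / Real.log k)) * (2 * q.totient)
            = k * ((4 * (C1 * q) * q.totient) / Real.log k) := by ring
          _ ≤ k * 1 := by
            gcongr
            rw [div_le_one hk0]
            exact hk.le
          _ = k := mul_one _
  have hpos : (k:ℝ) / (2 * q.totient) ≤ ∑ p ∈ (Finset.Ioc (n - k) n).filter
      (fun p : ℕ => p.Prime ∧ (p : ZMod q) = a), Real.log p := by
    have h3 := (abs_le.1 h1).1
    have h4 := (abs_le.1 h2).2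
    have h5 : (n:ℝ) / q.totient - (n - k) / q.totient = k / q.totient := by ring
    have h6 : (k:ℝ) / q.totient = k / (2 * q.totient) + k / (2 * q.totient) := by
      field_simp
      ring
    linarith
  refine ⟨(Finset.Ioc (n - k) n).filter (fun p : ℕ => p.Prime ∧ (p : ZMod q) = a), ?_, ?_⟩
  · have h3 : ∀ p ∈ (Finset.Ioc (n - k) n).filter
        (fun p : ℕ => p.Prime ∧ (p : ZMod q) = a), Real.log p ≤ 2 * Real.log k := by
      intro p hp
      have hp1 := mem_Ioc.1 (mem_filter.1 hp).1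
      have hp0 : (0:ℝ) < p := by exact_mod_cast (by omega : 0 < p)
      have h4 : (p:ℝ) ≤ (k:ℝ) ^ 2 := by
        calc (p:ℝ) ≤ n := by exact_mod_cast hp1.2
          _ ≤ k * Real.log k ^ A := hnk
          _ ≤ k * k := by gcongr
          _ = (k:ℝ) ^ 2 := by ring
      calc Real.log p ≤ Real.log ((k:ℝ) ^ 2) := Real.log_le_log hp0 h4
        _ = 2 * Real.log k := by rw [Real.log_pow]; push_cast; ring
    have h4 := hpos.trans (Finset.sum_le_card_nsmul _ _ _ h3)
    rw [nsmul_eq_mul] at h4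
    rw [div_le_iff₀ (by positivity)]
    rw [div_le_iff₀ (by positivity)] at h4
    calc (k:ℝ) ≤ _ := h4
      _ = _ := by ring
  · intro p hp
    obtain ⟨hp1, hp2, hp3⟩ := mem_filter.1 hp
    rw [mem_Ioc] at hp1
    refine ⟨hp2, hp3, by omega, ?_⟩
    have h3 : n % p = n - p := by
      rw [Nat.mod_eq_sub_mod hp1.2, Nat.mod_eq_of_lt (by omega)]
    omega

end Pool.Agent.Mos26
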