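import Pool.Agent.Mos26.Range

/-!
# Primes `p ≡ a (mod q)`, `p > k`, dividing `binom(n, k)` for `2 k ≤ n ≤ k ^ C`: the long range
-/

open Complex Finset Nat Filter Topology

namespace Pool.Agent.Mos26
open Pool.Agent.ANT Pool.Agent.StableX

lemma sqrt_four (k : ℕ) : Nat.sqrt (Nat.sqrt k) ^ 4 ≤ k ∧ k < (Nat.sqrt (Nat.sqrt k) + 1) ^ 4 := by
  have h1 := Nat.sqrt_le' k
  have h2 := Nat.sqrt_le' (Nat.sqrt k)
  have h3 := Nat.lt_succ_sqrt' k
  have h4 := Nat.lt_succ_sqrt' (Nat.sqrt k)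
  constructor
  · calc Nat.sqrt (Nat.sqrt k) ^ 4 = (Nat.sqrt (Nat.sqrt k) ^ 2) ^ 2 := by ring
      _ ≤ (Nat.sqrt k) ^ 2 := Nat.pow_le_pow_left h2 2
      _ ≤ k := h1
  · calc k < (Nat.sqrt k + 1) ^ 2 := h3
      _ ≤ ((Nat.sqrt (Nat.sqrt k) + 1) ^ 2) ^ 2 := Nat.pow_le_pow_left h4 2
      _ = (Nat.sqrt (Nat.sqrt k) + 1) ^ 4 := by ring

open Classical in
/-- Upper bound for the bad primes. -/
lemma bad_upper (C : ℕ) : ∃ s : ℕ, ∀ H k K' n : ℕ, 0 < H → 2 ≤ Real.log k →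
    16 * Real.log k ^ (12 * s) ≤ k → ((H * 16 ^ (C + 1) : ℕ) : ℝ) ≤ k → k ≤ K' → 16 * K' ≤ 17 * k →
    (k:ℝ) * Real.log k ^ (6 * s) ≤ n → n ≤ k ^ C →
    (((Ioc k K').filter (fun p : ℕ => p.Prime ∧ ∃ N : ℤ, |(n:ℝ) / p - N| ≤ 1 / (16 * H))).card : ℝ)
      ≤ 8 * ((K':ℝ) - k) / (H * Real.log k) + (6 * k / Real.log k ^ 2 +
        2 * Real.log k ^ 4 * Real.sqrt k) := by
  obtain ⟨s, hs⟩ := recip_sum (2 * C + 2)
  refine ⟨s, fun H k K' n hH hL hk1 hk2 hkK hK' hn hnC => ?_⟩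
  set L := Real.log k with hLdef
  have hL0 : 0 < L := by linarith
  have hkpos : 0 < k := by
    by_contra h
    have : k = 0 := by omega
    rw [hLdef, this] at hL0
    simp at hL0
  have hkR : (0:ℝ) < k := by exact_mod_cast hkpos
  have hHR : (1:ℝ) ≤ H := by exact_mod_cast hH
  obtain ⟨T, hT⟩ : ∃ T, T = Nat.sqrt (Nat.sqrt k) := ⟨_, rfl⟩
  obtain ⟨hT1, hT2⟩ := sqrt_four k
  rw [← hT] at hT1 hT2
  have hTpos : 1 ≤ T := by
    rw [hT]
    exact Nat.sqrt_pos.2 (Nat.sqrt_pos.2 hkpos)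
  have hTR : (1:ℝ) ≤ T := by exact_mod_cast hTpos
  have hTk : T ≤ k := le_trans (Nat.le_self_pow (by norm_num) T) hT1
  have hT16 : (k:ℝ) ≤ 16 * (T:ℝ) ^ 4 := by
    have h1 : (k:ℝ) ≤ ((T:ℝ) + 1) ^ 4 := by exact_mod_cast hT2.le
    calc (k:ℝ) ≤ ((T:ℝ) + 1) ^ 4 := h1
      _ ≤ ((T:ℝ) + T) ^ 4 := by gcongr
      _ = 16 * (T:ℝ) ^ 4 := by ring
  have hT4R : (T:ℝ) ^ 4 ≤ k := by exact_mod_cast hT1
  -- lower bound for k / d
  have hM : ∀ d : ℕ, 1 ≤ d → d ≤ T ^ 2 → T ^ 2 ≤ k / d := by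
    intro d hd1 hd2
    rw [Nat.le_div_iff_mul_le (by omega)]
    calc T ^ 2 * d ≤ T ^ 2 * T ^ 2 := Nat.mul_le_mul_left _ hd2
      _ = T ^ 4 := by ring
      _ ≤ k := hT1
  have hKs : (L ^ 6) ^ s ≤ (T:ℝ) ^ 2 := by
    have h1 : ((L ^ 6) ^ s) ^ 2 ≤ ((T:ℝ) ^ 2) ^ 2 := by
      have h2 : ((L ^ 6) ^ s) ^ 2 = L ^ (12 * s) := by
        rw [← pow_mul, ← pow_mul]; congr 1; ring
      rw [h2]
      have h3 : 16 * L ^ (12 * s) ≤ 16 * (T:ℝ) ^ 4 := hk1.trans hT16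
      calc L ^ (12 * s) ≤ (T:ℝ) ^ 4 := by linarith
        _ = ((T:ℝ) ^ 2) ^ 2 := by ring
    exact (pow_le_pow_iff_left₀ (by positivity) (by positivity) (by norm_num)).1 h1
  have hL6 : 2 ≤ L ^ 6 := by
    calc (2:ℝ) ≤ 2 ^ 6 := by norm_num
      _ ≤ L ^ 6 := by gcongr
  have hexp : ∀ d : ℕ, 1 ≤ d → d ≤ T ^ 2 → ∀ h : ℕ, 1 ≤ h → h < H →
      ‖∑ m ∈ Ioc (k / d) (K' / d), ee (h * ((n:ℝ) / ((d * m : ℕ) : ℝ)))‖ ≤
        3 * (((k / d : ℕ) : ℝ) / L ^ 6) := by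
    intro d hd1 hd2 h hh1 hhH
    have hMd := hM d hd1 hd2
    have hdR : (1:ℝ) ≤ d := by exact_mod_cast hd1
    have hd0 : (0:ℝ) < d := by linarith
    have hhR : (1:ℝ) ≤ h := by exact_mod_cast hh1
    have hMR : (T:ℝ) ^ 2 ≤ ((k / d : ℕ) : ℝ) := by exact_mod_cast hMd
    have h1 := hs (L ^ 6) hL6 (k / d) (hKs.trans hMR) (h * (n / d))
      (by
        have h2 : ((k / d : ℕ) : ℝ) ≤ k / d := Nat.cast_div_le
        calc ((k / d : ℕ) : ℝ) * (L ^ 6) ^ s ≤ (k / d) * (L ^ 6) ^ s := by gcongr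
          _ = (k * L ^ (6 * s)) / d := by rw [← pow_mul]; ring
          _ ≤ n / d := by gcongr
          _ ≤ h * (n / d) := le_mul_of_one_le_left (by positivity) hhR)
      (by
        have hnR : (n:ℝ) ≤ (k:ℝ) ^ C := by exact_mod_cast hnC
        have hhH' : (h:ℝ) ≤ H := by exact_mod_cast hhH.le
        calc (h:ℝ) * (n / d) ≤ H * (n / 1) := by gcongr
          _ = H * n := by rw [div_one]
          _ ≤ H * (k:ℝ) ^ C := by gcongr
          _ = (H * 16 ^ (C + 1)) * (k:ℝ) ^ C / 16 ^ (C + 1) := by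
            field_simp
          _ ≤ k * (k:ℝ) ^ C / 16 ^ (C + 1) := by
            push_cast at hk2
            gcongr
          _ = ((k:ℝ) / 16) ^ (C + 1) := by rw [div_pow]; ring
          _ ≤ ((T:ℝ) ^ 4) ^ (C + 1) := by
            gcongr
            linarith
          _ = ((T:ℝ) ^ 2) ^ (2 * C + 2) := by
            rw [← pow_mul, ← pow_mul]; congr 1; ring
          _ ≤ ((k / d : ℕ) : ℝ) ^ (2 * C + 2) := by gcongr)
      (k / d) (K' / d) le_rfl (Nat.div_le_div_right hkK)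
      (by
        have hM1 : 1 ≤ k / d := le_trans (Nat.one_le_pow _ _ hTpos) hMd
        have h2 : k < (k / d + 1) * d := by
          have := Nat.div_add_mod k d
          have := Nat.mod_lt k (by omega : d > 0)
          nlinarith
        rw [← Nat.lt_succ_iff, Nat.div_lt_iff_lt_mul (by omega)]
        generalize k / d = M at *
        have h3 : 16 * K' < 16 * ((2 * M).succ * d) := by
          calc 16 * K' ≤ 17 * k := hK'
            _ < 17 * ((M + 1) * d) := by omega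
            _ = (17 * M + 17) * d := by ring
            _ ≤ (32 * M + 16) * d := Nat.mul_le_mul_right _ (by omega)
            _ = 16 * ((2 * M).succ * d) := by rw [Nat.succ_eq_add_one]; ring
        omega)
    refine le_trans (le_of_eq ?_) h1
    congr 1
    refine Finset.sum_congr rfl fun m hm => ?_
    congr 1
    push_cast
    rw [mul_div_assoc, div_div]
  have hmain := weighted_upper k K' T n H hTpos hTk hkK hH
    (fun d => 3 * (((k / d : ℕ) : ℝ) / L ^ 6)) (fun d => by positivity) hexp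
  refine hmain.trans (add_le_add ?_ ?_)
  · -- main term
    have hG := G_ge T 1 one_ne_zero
    rw [Nat.totient_one, Nat.cast_one, div_one, one_mul] at hG
    have h1 : L / 4 ≤ Real.log (T + 1) := by
      have h2 : L ≤ Real.log (((T:ℝ) + 1) ^ 4) :=
        Real.log_le_log hkR (by exact_mod_cast hT2.le)
      rw [Real.log_pow] at h2
      push_cast at h2
      linarith
    have h3 : (0:ℝ) ≤ (K':ℝ) - k := by
      have : (k:ℝ) ≤ K' := by exact_mod_cast hkK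
      linarith
    calc 2 / (H:ℝ) * ((K':ℝ) - k) / G T 1 ≤ 2 / (H:ℝ) * ((K':ℝ) - k) / (L / 4) := by
          gcongr
          exact h1.trans hG
      _ = 8 * ((K':ℝ) - k) / (H * L) := by
        field_simp
        ring
  · have hτ := sum_tau_sq_div_le (T ^ 2)
    have hT2k : ((T ^ 2 : ℕ) : ℝ) ≤ Real.sqrt k := by
      apply Real.le_sqrt_of_sq_le
      push_cast
      calc ((T:ℝ) ^ 2) ^ 2 = (T:ℝ) ^ 4 := by ring
        _ ≤ (k:ℝ) := hT4R
    have hHs : Hs (T ^ 2) ≤ L := by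
      have h1 := Hs_le (T ^ 2)
      have h2 : Real.log ((T ^ 2 : ℕ) : ℝ) ≤ L / 2 := by
        calc Real.log ((T ^ 2 : ℕ) : ℝ) ≤ Real.log (Real.sqrt k) := by
              apply Real.log_le_log _ hT2k
              exact_mod_cast pow_pos hTpos 2
          _ = L / 2 := by rw [Real.log_sqrt hkR.le]
      linarith
    have hHs4 : Hs (T ^ 2) ^ 4 ≤ L ^ 4 := pow_le_pow_left₀ (Hs_nonneg _) hHs 4
    calc ∑ d ∈ Ioc 0 (T ^ 2), tauR d ^ 2 * (2 * (3 * (((k / d : ℕ) : ℝ) / L ^ 6)) + 2 / H)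
        ≤ ∑ d ∈ Ioc 0 (T ^ 2), (tauR d ^ 2 / d) * (6 * k / L ^ 6 + 2 * Real.sqrt k) := by
          refine Finset.sum_le_sum fun d hd => ?_
          rw [mem_Ioc] at hd
          have hd0 : (0:ℝ) < d := by exact_mod_cast hd.1
          have h1 : ((k / d : ℕ) : ℝ) ≤ k / d := Nat.cast_div_le
          have h2 : (d:ℝ) ≤ Real.sqrt k := le_trans (by exact_mod_cast hd.2) hT2k
          rw [div_mul_eq_mul_div, mul_div_assoc]
          refine mul_le_mul_of_nonneg_left ?_ (by positivity)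
          rw [add_div]
          refine add_le_add ?_ ?_
          · calc 2 * (3 * (((k / d : ℕ) : ℝ) / L ^ 6)) ≤ 2 * (3 * ((k / d) / L ^ 6)) := by gcongr
              _ = 6 * k / L ^ 6 / d := by ring
          · rw [le_div_iff₀ hd0]
            calc 2 / (H:ℝ) * d ≤ 2 / 1 * d := by gcongr
              _ ≤ 2 * Real.sqrt k := by linarith
      _ = (∑ d ∈ Ioc 0 (T ^ 2), tauR d ^ 2 / d) * (6 * k / L ^ 6 + 2 * Real.sqrt k) := by
          rw [Finset.sum_mul]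
      _ ≤ L ^ 4 * (6 * k / L ^ 6 + 2 * Real.sqrt k) := by
          gcongr
          exact hτ.trans hHs4
      _ = 6 * k / L ^ 2 + 2 * L ^ 4 * Real.sqrt k := by
          field_simp

end Pool.Agent.Mos26
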