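import Pool.Agent.Mos26.Range2

/-!
# Primes `p ≡ a (mod q)`, `p > k`, dividing `binom(n, k)` for `2 k ≤ n ≤ k ^ C`: conclusion
-/

open Complex Finset Nat Filter Topology

namespace Pool.Agent.Mos26
open Pool.Agent.ANT Pool.Agent.StableX

lemma tendsto_log_nat : Tendsto (fun k : ℕ => Real.log (k:ℝ)) atTop atTop :=
  Real.tendsto_log_atTop.comp tendsto_natCast_atTop_atTop

lemma log_pow_div_sqrt (N : ℕ) :
    Tendsto (fun k : ℕ => Real.log (k:ℝ) ^ N / Real.sqrt k) atTop (𝓝 0) := by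
  have h1 : Tendsto (fun x : ℝ => Real.log x ^ (2 * N) / x) atTop (𝓝 0) :=
    (Asymptotics.isLittleO_iff_tendsto' (by
      filter_upwards [eventually_gt_atTop 0] with x hx h
      exact absurd h hx.ne')).1 Real.isLittleO_pow_log_id_atTop
  have h2 := (h1.comp (tendsto_natCast_atTop_atTop (R := ℝ))).sqrt
  rw [Real.sqrt_zero] at h2
  refine h2.congr' ?_
  filter_upwards [tendsto_log_nat.eventually_ge_atTop 0] with k hk
  simp only [Function.comp]
  rw [Real.sqrt_div (by positivity), pow_mul', Real.sqrt_sq (by positivity)]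

lemma log_pow_le (N : ℕ) {c : ℝ} (hc : 0 < c) :
    ∀ᶠ k : ℕ in atTop, c * Real.log (k:ℝ) ^ N ≤ k := by
  have h1 : ∀ᶠ x : ℝ in atTop, ‖Real.log x ^ N‖ ≤ (1 / c) * ‖x‖ :=
    Real.isLittleO_pow_log_id_atTop.bound (by positivity)
  filter_upwards [tendsto_natCast_atTop_atTop.eventually h1, tendsto_log_nat.eventually_ge_atTop 0]
    with k hk hk0
  rw [Real.norm_eq_abs, Real.norm_eq_abs, abs_of_nonneg (by positivity),
    abs_of_nonneg (Nat.cast_nonneg k)] at hk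
  calc c * Real.log (k:ℝ) ^ N ≤ c * (1 / c * k) := by gcongr
    _ = k := by field_simp

open Classical in
/-- The range `k (log k) ^ A ≤ n ≤ k ^ C`. -/
lemma range_large (q : ℕ) [NeZero q] (a : ZMod q) (ha : IsUnit a) (C : ℕ) :
    ∃ A : ℕ, ∀ᶠ k : ℕ in atTop, ∀ n : ℕ, (k:ℝ) * Real.log k ^ A ≤ n → n ≤ k ^ C →
      ∃ S : Finset ℕ, (k:ℝ) / (8192 * (q.totient:ℝ) ^ 2 * Real.log k) ≤ (S.card : ℝ) ∧
        ∀ p ∈ S, p.Prime ∧ (p : ZMod q) = a ∧ k < p ∧ n % p < k := by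
  obtain ⟨s, hs⟩ := bad_upper C
  obtain ⟨C1, hC1, hθ⟩ := theta_ap 1 (show (0:ℝ) < 1 by norm_num)
  have hq : (0:ℝ) < q := by exact_mod_cast Nat.pos_of_ne_zero (NeZero.ne q)
  obtain ⟨ft, hfdef⟩ : ∃ ft, ft = q.totient := ⟨_, rfl⟩
  have hf0 : 0 < ft := hfdef ▸ Nat.totient_pos.mpr (Nat.pos_of_ne_zero (NeZero.ne q))
  have hf : (0:ℝ) < ft := by exact_mod_cast hf0
  obtain ⟨H, hHdef⟩ : ∃ H, H = 32 * ft := ⟨_, rfl⟩
  have hH : 0 < H := by omega
  have hHR : (0:ℝ) < H := by exact_mod_cast hH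
  have hHf : (H:ℝ) = 32 * ft := by rw [hHdef]; push_cast; ring
  refine ⟨6 * s, ?_⟩
  have hc4 : ∀ᶠ k : ℕ in atTop, (4 * (C1 * q) + 12) / Real.log k +
      4 * (Real.log (k:ℝ) ^ 5 / Real.sqrt k) < 1 / (128 * H * ft) := by
    have h1 : Tendsto (fun k : ℕ => (4 * (C1 * q) + 12) / Real.log k +
        4 * (Real.log (k:ℝ) ^ 5 / Real.sqrt k)) atTop (𝓝 (0 + 4 * 0)) :=
      (tendsto_const_nhds.div_atTop tendsto_log_nat).add ((log_pow_div_sqrt 5).const_mul 4)
    rw [mul_zero, add_zero] at h1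
    exact h1.eventually_lt_const (by positivity)
  filter_upwards [tendsto_log_nat.eventually_ge_atTop 2,
    log_pow_le (12 * s) (show (0:ℝ) < 16 by norm_num),
    eventually_ge_atTop (H * 16 ^ (C + 1)), eventually_ge_atTop (32 * H), hc4,
    eventually_ge_atTop 3] with k hL hk1 hk2 hk3 hk4 hk5 n hn hnC
  have hk0 : (0:ℝ) < k := by exact_mod_cast (by omega : 0 < k)
  obtain ⟨δ, hδ⟩ : ∃ δ, δ = k / (16 * H) := ⟨_, rfl⟩
  have hδ1 : 16 * H * δ ≤ k := by rw [hδ]; exact Nat.mul_div_le k (16 * H)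
  have hδ2 : (k:ℝ) / (32 * H) ≤ δ := by
    have h1 : k < 16 * H * (δ + 1) := by
      rw [hδ]; exact Nat.lt_mul_div_succ k (by omega)
    have h2 : k ≤ 32 * H * δ := by nlinarith
    rw [div_le_iff₀ (by positivity)]
    have h3 : (k:ℝ) ≤ 32 * H * δ := by exact_mod_cast h2
    linarith
  have hδ3 : (δ:ℝ) ≤ k / (16 * H) := by
    rw [le_div_iff₀ (by positivity)]
    have h3 : 16 * (H:ℝ) * δ ≤ k := by exact_mod_cast hδ1
    linarith
  have hδk : 16 * δ ≤ k := by nlinarith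
  obtain ⟨K', hK'⟩ : ∃ K', K' = k + δ := ⟨_, rfl⟩
  have hkK : k ≤ K' := by omega
  have hK'R : (K':ℝ) = k + δ := by rw [hK']; push_cast; ring
  have hup := hs H k K' n hH hL hk1 (by exact_mod_cast hk2) hkK (by omega) hn hnC
  rw [show ((K':ℝ) - k) = δ by rw [hK'R]; ring] at hup
  set L := Real.log k with hLdef
  have hL0 : 0 < L := by linarith
  -- lower bound
  have hb : ∀ x : ℕ, k ≤ x → x ≤ 2 * k →
      |∑ p ∈ (Finset.Icc 1 x).filter (fun p : ℕ => p.Prime ∧ (p : ZMod q) = a), Real.log p -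
        (x:ℝ) / ft| ≤ C1 * q * ((2 * k) / L) := by
    intro x hx hxn
    have h1 := hθ q a ha (x:ℝ) (by exact_mod_cast hk5.trans hx)
    rw [Nat.floor_natCast, Real.rpow_one, ← hfdef, pow_one] at h1
    refine h1.trans ?_
    have h2 : L ≤ Real.log x := Real.log_le_log hk0 (by exact_mod_cast hx)
    have h3 : (x:ℝ) ≤ 2 * k := by exact_mod_cast hxn
    rw [mul_div_assoc]
    gcongr
  have h1 := hb K' hkK (by omega)
  have h2 := hb k le_rfl (by omega)
  have hsub : (Finset.Icc 1 K').filter (fun p : ℕ => p.Prime ∧ (p : ZMod q) = a) =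
      (Finset.Icc 1 k).filter (fun p : ℕ => p.Prime ∧ (p : ZMod q) = a) ∪
      (Finset.Ioc k K').filter (fun p : ℕ => p.Prime ∧ (p : ZMod q) = a) := by
    rw [← Finset.filter_union]
    congr 1
    ext m
    simp only [mem_union, mem_Icc, mem_Ioc]
    omega
  have hdisj : Disjoint ((Finset.Icc 1 k).filter (fun p : ℕ => p.Prime ∧ (p : ZMod q) = a))
      ((Finset.Ioc k K').filter (fun p : ℕ => p.Prime ∧ (p : ZMod q) = a)) := by
    rw [Finset.disjoint_left]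
    intro m hm hm'
    have := (mem_Icc.1 (mem_filter.1 hm).1).2
    have := (mem_Ioc.1 (mem_filter.1 hm').1).1
    omega
  rw [hsub, Finset.sum_union hdisj] at h1
  have hlow : (δ:ℝ) / ft - 4 * (C1 * q) * k / L ≤ ∑ p ∈ (Finset.Ioc k K').filter
      (fun p : ℕ => p.Prime ∧ (p : ZMod q) = a), Real.log p := by
    have h3 := (abs_le.1 h1).1
    have h4 := (abs_le.1 h2).2
    have h5 : (K':ℝ) / ft - k / ft = δ / ft := by rw [hK'R]; ring
    have h6 : C1 * q * ((2 * k) / L) + C1 * q * ((2 * k) / L) = 4 * (C1 * q) * k / L := by ring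
    linarith
  -- the primes of the class that are not good are bad
  obtain ⟨Sg, hSg⟩ : ∃ Sg, Sg = (Ioc k K').filter
    (fun p : ℕ => (p.Prime ∧ (p : ZMod q) = a) ∧ n % p < k) := ⟨_, rfl⟩
  have hbad : (Finset.Ioc k K').filter (fun p : ℕ => p.Prime ∧ (p : ZMod q) = a) ⊆ Sg ∪
      (Ioc k K').filter (fun p : ℕ => p.Prime ∧ ∃ N : ℤ, |(n:ℝ) / p - N| ≤ 1 / (16 * H)) := by
    intro p hp
    rw [mem_filter] at hp
    rw [mem_union, hSg, mem_filter, mem_filter]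
    obtain ⟨hp1, hp2, hp3⟩ := hp
    by_cases hg : n % p < k
    · exact Or.inl ⟨hp1, ⟨hp2, hp3⟩, hg⟩
    refine Or.inr ⟨hp1, hp2, ((n / p : ℕ) : ℤ) + 1, ?_⟩
    rw [mem_Ioc] at hp1
    have h3 : k ≤ n % p := not_lt.1 hg
    have hp0 : (0:ℝ) < p := by exact_mod_cast (by omega : 0 < p)
    have h4 : (n:ℝ) = p * ((n / p : ℕ) : ℝ) + ((n % p : ℕ) : ℝ) := by
      exact_mod_cast (Nat.div_add_mod n p).symm
    generalize n / p = m at h4 ⊢
    have h5 : (n:ℝ) / p - (((m : ℤ) + 1 : ℤ) : ℝ) = -(((p:ℝ) - ((n % p : ℕ) : ℝ)) / p) := by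
      push_cast
      rw [← neg_div, eq_div_iff hp0.ne', sub_mul, div_mul_cancel₀ _ hp0.ne', h4]
      ring
    rw [h5, abs_neg, abs_of_nonneg]
    · rw [div_le_div_iff₀ hp0 (by positivity)]
      have h6 : (k:ℝ) ≤ ((n % p : ℕ) : ℝ) := by exact_mod_cast h3
      have h7 : (p:ℝ) ≤ k + δ := by rw [← hK'R]; exact_mod_cast hp1.2
      have h8 : (k:ℝ) ≤ p := by exact_mod_cast hp1.1.le
      have h9 : 16 * (H:ℝ) * δ ≤ k := by exact_mod_cast hδ1
      calc ((p:ℝ) - ((n % p : ℕ) : ℝ)) * (16 * H) ≤ δ * (16 * H) := by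
            gcongr
            linarith
        _ = 16 * (H:ℝ) * δ := by ring
        _ ≤ 1 * p := by linarith
    · have h6 : ((n % p : ℕ) : ℝ) ≤ p := by
        exact_mod_cast (Nat.mod_lt n (by omega)).le
      exact div_nonneg (by linarith) hp0.le
  have hlogle : ∑ p ∈ (Finset.Ioc k K').filter
      (fun p : ℕ => p.Prime ∧ (p : ZMod q) = a), Real.log p ≤
      ((Sg.card : ℝ) + (((Ioc k K').filter (fun p : ℕ => p.Prime ∧ ∃ N : ℤ,
        |(n:ℝ) / p - N| ≤ 1 / (16 * H))).card : ℝ)) * (2 * L) := by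
    have h3 : ∀ p ∈ (Finset.Ioc k K').filter (fun p : ℕ => p.Prime ∧ (p : ZMod q) = a),
        Real.log p ≤ 2 * L := by
      intro p hp
      have hp1 := mem_Ioc.1 (mem_filter.1 hp).1
      have hp0 : (0:ℝ) < p := by exact_mod_cast (by omega : 0 < p)
      have h4 : (p:ℝ) ≤ (k:ℝ) ^ 2 := by
        have : p ≤ k ^ 2 := by nlinarith [hp1.1, hp1.2]
        exact_mod_cast this
      calc Real.log p ≤ Real.log ((k:ℝ) ^ 2) := Real.log_le_log hp0 h4
        _ = 2 * L := by rw [Real.log_pow]; push_cast; ring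
    refine (Finset.sum_le_card_nsmul _ _ _ h3).trans ?_
    rw [nsmul_eq_mul]
    have h4 := (Finset.card_le_card hbad).trans (Finset.card_union_le _ _)
    have h5 : (((Finset.Ioc k K').filter (fun p : ℕ => p.Prime ∧ (p : ZMod q) = a)).card : ℝ) ≤
      (Sg.card : ℝ) + (((Ioc k K').filter (fun p : ℕ => p.Prime ∧ ∃ N : ℤ,
        |(n:ℝ) / p - N| ≤ 1 / (16 * H))).card : ℝ) := by exact_mod_cast h4
    gcongr
  -- combine
  have hfin : (δ:ℝ) / ft - 4 * (C1 * q) * k / L ≤ ((Sg.card : ℝ) + (8 * δ / (H * L) +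
      (6 * k / L ^ 2 + 2 * L ^ 4 * Real.sqrt k))) * (2 * L) :=
    hlow.trans (hlogle.trans (by gcongr))
  have hsqrt : 0 < Real.sqrt k := Real.sqrt_pos.2 hk0
  have hsq : Real.sqrt k * Real.sqrt k = k := Real.mul_self_sqrt hk0.le
  have h7 : ((Sg.card : ℝ) + (8 * δ / (H * L) + (6 * k / L ^ 2 + 2 * L ^ 4 * Real.sqrt k))) *
      (2 * L) = Sg.card * (2 * L) + (δ / (2 * ft) + 12 * k / L + 4 * L ^ 5 * Real.sqrt k) := by
    rw [hHf]
    field_simp
    ring
  rw [h7] at hfin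
  have h8 : (δ:ℝ) / (2 * ft) ≤ Sg.card * (2 * L) +
      k * ((4 * (C1 * q) + 12) / L + 4 * (L ^ 5 / Real.sqrt k)) := by
    have h9 : (k:ℝ) * ((4 * (C1 * q) + 12) / L + 4 * (L ^ 5 / Real.sqrt k)) =
        4 * (C1 * q) * k / L + 12 * k / L + 4 * L ^ 5 * Real.sqrt k := by
      have : (k:ℝ) * (L ^ 5 / Real.sqrt k) = L ^ 5 * Real.sqrt k := by
        rw [mul_div_assoc', div_eq_iff hsqrt.ne']
        rw [mul_assoc, hsq]; ring
      rw [mul_add, mul_left_comm (k:ℝ) 4, this]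
      ring
    rw [h9]
    have h10 : (δ:ℝ) / ft = δ / (2 * ft) + δ / (2 * ft) := by
      field_simp
      ring
    linarith
  have h11 : (k:ℝ) * ((4 * (C1 * q) + 12) / L + 4 * (L ^ 5 / Real.sqrt k)) ≤
      k * (1 / (128 * H * ft)) := by gcongr
  have h12 : (k:ℝ) * (1 / (64 * H * ft)) ≤ δ / (2 * ft) := by
    calc (k:ℝ) * (1 / (64 * H * ft)) = (k / (32 * H)) / (2 * ft) := by
          field_simp
          ring
      _ ≤ δ / (2 * ft) := by gcongr
  have h13 : (k:ℝ) * (1 / (64 * H * ft)) = k * (1 / (128 * H * ft)) + k * (1 / (128 * H * ft)) := by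
    field_simp
    ring
  refine ⟨Sg, ?_, ?_⟩
  · have h14 : (k:ℝ) * (1 / (128 * H * ft)) ≤ Sg.card * (2 * L) := by linarith
    rw [div_le_iff₀ (by rw [← hfdef]; positivity), ← hfdef]
    have h15 : (k:ℝ) * (1 / (128 * H * ft)) = k / (4096 * ft ^ 2) := by
      rw [hHf]
      field_simp
      norm_num
    rw [h15, div_le_iff₀ (by positivity)] at h14
    calc (k:ℝ) ≤ _ := h14
      _ = _ := by ring
  · intro p hp
    rw [hSg, mem_filter] at hp
    exact ⟨hp.2.1.1, hp.2.1.2, (mem_Ioc.1 hp.1).1, hp.2.2⟩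

/-- For every unit residue class `a` modulo `q` and every exponent `C`, for all large `k` and all
`n` with `2 k ≤ n ≤ k ^ C` there are at least `c k / log k` primes `p ≡ a (mod q)`, `p > k`,
dividing `binom(n, k)`; here `c = 1 / (8192 φ(q)^2)`. -/
theorem range_count (q : ℕ) [NeZero q] (a : ZMod q) (ha : IsUnit a) (C : ℕ) :
    ∀ᶠ k : ℕ in atTop, ∀ n : ℕ, 2 * k ≤ n → n ≤ k ^ C →
      (k:ℝ) / (8192 * (q.totient:ℝ) ^ 2 * Real.log k) ≤
        (((n.choose k).primeFactors.filter (fun p : ℕ => (p : ZMod q) = a ∧ k < p)).card : ℝ) := by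
  obtain ⟨A, hA⟩ := range_large q a ha C
  have hf0 : 0 < q.totient := Nat.totient_pos.mpr (Nat.pos_of_ne_zero (NeZero.ne q))
  have hf : (1:ℝ) ≤ q.totient := by exact_mod_cast hf0
  filter_upwards [hA, range_small q a ha A, tendsto_log_nat.eventually_ge_atTop 1] with
    k h1 h2 hL n hn hnC
  have key : ∃ S : Finset ℕ, (k:ℝ) / (8192 * (q.totient:ℝ) ^ 2 * Real.log k) ≤ (S.card : ℝ) ∧
      ∀ p ∈ S, p.Prime ∧ (p : ZMod q) = a ∧ k < p ∧ n % p < k := by
    rcases le_total (n:ℝ) ((k:ℝ) * Real.log k ^ A) with h | h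
    · obtain ⟨S, hS1, hS2⟩ := h2 n hn h
      refine ⟨S, le_trans ?_ hS1, hS2⟩
      apply div_le_div_of_nonneg_left (Nat.cast_nonneg k) (by positivity)
      have : 4 * (q.totient:ℝ) ≤ 8192 * (q.totient:ℝ) ^ 2 := by nlinarith
      gcongr
    · exact h1 n h hnC
  obtain ⟨S, hS1, hS2⟩ := key
  refine hS1.trans ?_
  have hsub : S ⊆ (n.choose k).primeFactors.filter (fun p : ℕ => (p : ZMod q) = a ∧ k < p) := by
    intro p hp
    obtain ⟨hp1, hp2, hp3, hp4⟩ := hS2 p hp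
    rw [mem_filter, Nat.mem_primeFactors]
    exact ⟨⟨hp1, dvd_choose hp1 hp3 hp4, (Nat.choose_pos (by omega)).ne'⟩, hp2, hp3⟩
  exact_mod_cast Finset.card_le_card hsub

/-- For every unit residue class `a` modulo `q` and every exponent `C`, for all large `k` and all
`n` with `2 k ≤ n ≤ k ^ C` there is a prime `p ≡ a (mod q)`, `p > k`, dividing `binom(n, k)`. -/
theorem range_all (q : ℕ) [NeZero q] (a : ZMod q) (ha : IsUnit a) (C : ℕ) :
    ∀ᶠ k : ℕ in atTop, ∀ n : ℕ, 2 * k ≤ n → n ≤ k ^ C →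
      ∃ p : ℕ, p.Prime ∧ (p : ZMod q) = a ∧ k < p ∧ p ∣ n.choose k := by
  have hf0 : 0 < q.totient := Nat.totient_pos.mpr (Nat.pos_of_ne_zero (NeZero.ne q))
  filter_upwards [range_count q a ha C, tendsto_log_nat.eventually_ge_atTop 1,
    eventually_ge_atTop 1] with k h1 hL hk n hn hnC
  have h2 := h1 n hn hnC
  have hk0 : (0:ℝ) < k := by exact_mod_cast hk
  have hf : (0:ℝ) < q.totient := by exact_mod_cast hf0
  have h3 : (0:ℝ) < (k:ℝ) / (8192 * (q.totient:ℝ) ^ 2 * Real.log k) := by positivity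
  have h4 : 0 < ((n.choose k).primeFactors.filter (fun p : ℕ => (p : ZMod q) = a ∧ k < p)).card := by
    exact_mod_cast h3.trans_le h2
  obtain ⟨p, hp⟩ := Finset.card_pos.1 h4
  rw [mem_filter, Nat.mem_primeFactors] at hp
  exact ⟨p, hp.1.1, hp.2.1, hp.2.2, hp.1.2.1⟩

end Pool.Agent.Mos26
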