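import Pool.Agent.Mos26.Range3
import Pool.Agent.Lib.Sieve.Residue

/-!
# A sieve bound removing the residue classes `0, …, K - 1` modulo primes `> 2 K`
-/

open Finset Nat
open scoped ArithmeticFunction.omega

namespace Pool.Agent.Mos26
open Pool.Agent.ANT Pool.Agent.StableX Pool.Agent.Lib.Sieve

/-- The sum of the products of `w` over the subsets of `P` with at most `J` elements. -/
noncomputable def EJ (w : ℕ → ℝ) (P : Finset ℕ) (J : ℕ) : ℝ :=
  ∑ s ∈ P.powerset.filter (fun s => s.card ≤ J), ∏ p ∈ s, w p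

lemma exists_block (w : ℕ → ℝ) (P : Finset ℕ) : (∀ p ∈ P, w p ≤ 1 / 2) →
    1 ≤ ∑ p ∈ P, w p → ∃ B ⊆ P, 1 ≤ ∑ p ∈ B, w p ∧ ∑ p ∈ B, w p ≤ 3 / 2 := by
  induction P using Finset.strongInduction with
  | H P ih =>
    intro hw1 h
    by_cases h2 : ∑ p ∈ P, w p ≤ 3 / 2
    · exact ⟨P, subset_rfl, h, h2⟩
    · push Not at h2
      obtain ⟨p, hp⟩ : P.Nonempty := by
        rw [Finset.nonempty_iff_ne_empty]
        rintro rfl
        simp at h
        linarith
      have h3 : ∑ x ∈ P.erase p, w x = ∑ x ∈ P, w x - w p := by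
        rw [← Finset.add_sum_erase P w hp]; ring
      obtain ⟨B, hB, hB1, hB2⟩ := ih (P.erase p) (Finset.erase_ssubset hp)
        (fun x hx => hw1 x (Finset.mem_of_mem_erase hx)) (by
          rw [h3]
          have := hw1 p hp
          linarith)
      exact ⟨B, hB.trans (Finset.erase_subset _ _), hB1, hB2⟩

lemma EJ_ge (w : ℕ → ℝ) (J : ℕ) : ∀ P : Finset ℕ, (∀ p ∈ P, 0 ≤ w p) → (∀ p ∈ P, w p ≤ 1 / 2) →
    3 / 2 * (J:ℝ) ≤ ∑ p ∈ P, w p → (2:ℝ) ^ J ≤ EJ w P J := by
  induction J with
  | zero =>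
    intro P hw0 hw1 _
    unfold EJ
    rw [pow_zero]
    calc (1:ℝ) = ∏ p ∈ (∅ : Finset ℕ), w p := by simp
      _ ≤ _ := Finset.single_le_sum (f := fun s => ∏ p ∈ s, w p)
        (fun s hs => Finset.prod_nonneg fun p hp =>
          hw0 p (Finset.mem_powerset.1 (mem_filter.1 hs).1 hp))
        (by simp)
  | succ J ih =>
    intro P hw0 hw1 h
    obtain ⟨B, hB, hB1, hB2⟩ := exists_block w P hw1 (by
      refine le_trans ?_ h
      push_cast
      nlinarith [(Nat.cast_nonneg J : (0:ℝ) ≤ J)])
    have h3 : ∑ p ∈ P \ B, w p = ∑ p ∈ P, w p - ∑ p ∈ B, w p := by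
      rw [← Finset.sum_sdiff hB]; ring
    have h4 := ih (P \ B) (fun p hp => hw0 p (mem_sdiff.1 hp).1)
      (fun p hp => hw1 p (mem_sdiff.1 hp).1) (by
        rw [h3]
        push_cast at h
        linarith)
    have hEpos : 0 ≤ EJ w (P \ B) J := le_trans (by positivity) h4
    have h5 : (1 + ∑ b ∈ B, w b) * EJ w (P \ B) J ≤ EJ w P (J + 1) := by
      unfold EJ
      rw [add_mul, one_mul, Finset.sum_mul_sum]
      have h6 : ∑ b ∈ B, ∑ s ∈ (P \ B).powerset.filter (fun s => s.card ≤ J), w b * ∏ p ∈ s, w p =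
          ∑ x ∈ B ×ˢ (P \ B).powerset.filter (fun s => s.card ≤ J),
            ∏ p ∈ insert x.1 x.2, w p := by
        rw [Finset.sum_product]
        refine Finset.sum_congr rfl fun b hb => Finset.sum_congr rfl fun s hs => ?_
        rw [Finset.prod_insert]
        intro hbs
        exact (mem_sdiff.1 (Finset.mem_powerset.1 (mem_filter.1 hs).1 hbs)).2 hb
      rw [h6]
      have hinj : Set.InjOn (fun x : ℕ × Finset ℕ => insert x.1 x.2)
          (B ×ˢ (P \ B).powerset.filter (fun s => s.card ≤ J) : Finset (ℕ × Finset ℕ)) := by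
        rintro ⟨b, s⟩ hx ⟨b', s'⟩ hx' heq
        simp only [Finset.coe_product, Set.mem_prod, mem_coe, mem_filter, mem_powerset] at hx hx' heq
        have hbs : ∀ c ∈ B, c ∉ s := fun c hc hcs => (mem_sdiff.1 (hx.2.1 hcs)).2 hc
        have hbs' : ∀ c ∈ B, c ∉ s' := fun c hc hcs => (mem_sdiff.1 (hx'.2.1 hcs)).2 hc
        have h7 : b = b' := by
          have : b ∈ insert b' s' := heq ▸ mem_insert_self b s
          rcases mem_insert.1 this with h | h
          · exact h
          · exact absurd h (hbs' b hx.1)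
        subst h7
        refine Prod.ext rfl ?_
        rw [← Finset.erase_insert (hbs b hx.1), heq, Finset.erase_insert (hbs' b hx.1)]
      rw [← Finset.sum_image (f := fun s => ∏ p ∈ s, w p) hinj, ← Finset.sum_union]
      · refine Finset.sum_le_sum_of_subset_of_nonneg ?_ ?_
        · intro s hs
          rcases mem_union.1 hs with hs | hs
          · simp only [mem_filter, mem_powerset] at hs ⊢
            exact ⟨hs.1.trans Finset.sdiff_subset, by omega⟩
          · obtain ⟨⟨b, s'⟩, hx, rfl⟩ := mem_image.1 hs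
            simp only [Finset.mem_product, mem_filter, mem_powerset] at hx ⊢
            refine ⟨Finset.insert_subset (hB hx.1) (hx.2.1.trans Finset.sdiff_subset), ?_⟩
            exact (Finset.card_insert_le _ _).trans (by omega)
        · intro s hs _
          exact Finset.prod_nonneg fun p hp =>
            hw0 p (Finset.mem_powerset.1 (mem_filter.1 hs).1 hp)
      · rw [Finset.disjoint_left]
        intro s hs hs'
        obtain ⟨⟨b, s'⟩, hx, rfl⟩ := mem_image.1 hs'
        simp only [Finset.mem_product, mem_filter, mem_powerset] at hx hs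
        exact (mem_sdiff.1 (hs.1 (mem_insert_self b s'))).2 hx.1
    refine le_trans ?_ h5
    calc (2:ℝ) ^ (J + 1) = (1 + 1) * 2 ^ J := by ring
      _ ≤ (1 + ∑ b ∈ B, w b) * EJ w (P \ B) J := by gcongr

lemma EJ_one_ge (w : ℕ → ℝ) (P : Finset ℕ) (hw0 : ∀ p ∈ P, 0 ≤ w p) :
    ∑ p ∈ P, w p ≤ EJ w P 1 := by
  unfold EJ
  have h1 : ∑ p ∈ P, w p = ∑ s ∈ P.image (fun p => ({p} : Finset ℕ)), ∏ p ∈ s, w p := by
    rw [Finset.sum_image (by intro a _ b _ h; simpa using h)]
    simp
  rw [h1]
  refine Finset.sum_le_sum_of_subset_of_nonneg ?_ ?_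
  · intro s hs
    obtain ⟨p, hp, rfl⟩ := mem_image.1 hs
    simp [hp]
  · intro s hs _
    exact Finset.prod_nonneg fun p hp => hw0 p (Finset.mem_powerset.1 (mem_filter.1 hs).1 hp)

/-- Sieve bound. -/
theorem sieve_J (K Z J : ℕ) (hK : 1 ≤ K) (hZ : 1 ≤ Z) (P : Finset ℕ) (hP : ∀ p ∈ P, p.Prime)
    (hPK : ∀ p ∈ P, 2 * K < p) (hPZ : ∀ p ∈ P, p ≤ Z) (N : ℕ)
    (hE : 0 < EJ (fun p => (K:ℝ) / p) P J) :
    (((range N).filter (fun n => ∀ p ∈ P, K ≤ n % p)).card : ℝ) ≤
      N / EJ (fun p => (K:ℝ) / p) P J + (Z:ℝ) ^ (8 * J) := by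
  classical
  set w : ℕ → ℝ := fun p => (K:ℝ) / p with hw
  have hKR : (1:ℝ) ≤ K := by exact_mod_cast hK
  have hZR : (1:ℝ) ≤ Z := by exact_mod_cast hZ
  have hpr : ∀ s ⊆ P, (∏ p ∈ s, p).primeFactors = s := fun s hs =>
    Nat.primeFactors_prod fun p hp => hP p (hs hp)
  have hsq : Squarefree (∏ p ∈ P, p) := by
    refine Finset.squarefree_prod_of_pairwise_isCoprime ?_ ?_
    · intro x hx y hy hxy
      rw [Function.onFun, ← Nat.coprime_iff_isRelPrime]
      exact (Nat.coprime_primes (hP x hx) (hP y hy)).2 hxy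
    · intro p hp
      exact (hP p hp).prime.squarefree
  have hPf := hpr P subset_rfl
  set Q := ∏ p ∈ P, p with hQ
  have hs := selberg_residue Q hsq (fun _ => range K)
    (fun p hp => by
      rw [hPf] at hp
      exact Finset.range_subset_range.2 (by have := hPK p hp; omega))
    (fun p hp => by rw [card_range]; omega)
    (fun p hp => by
      rw [hPf] at hp
      rw [card_range]
      have := hPK p hp
      omega)
    0 N ((Z:ℝ) ^ (2 * J)) (one_le_pow₀ hZR)
  have hset : (Ico 0 (0 + N)).filter (fun n => ∀ p ∈ Q.primeFactors, n % p ∉ range K) =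
      (range N).filter (fun n => ∀ p ∈ P, K ≤ n % p) := by
    rw [hPf, zero_add, ← Finset.range_eq_Ico]
    refine Finset.filter_congr fun n _ => ?_
    simp only [mem_range, not_lt]
  rw [hset] at hs
  refine hs.trans (add_le_add ?_ ?_)
  · -- main term
    refine div_le_div_of_nonneg_left (Nat.cast_nonneg N) hE ?_
    unfold EJ
    have hg0 : ∀ l ∈ Q.divisors, (0:ℝ) ≤ (if (l : ℝ) ^ 2 ≤ (Z:ℝ) ^ (2 * J) then
        ∏ p ∈ l.primeFactors, (((range K).card : ℕ) : ℝ) / (p - ((range K).card : ℕ)) else 0) := by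
      intro l hl
      split_ifs
      · refine Finset.prod_nonneg fun p hp => ?_
        have hpP : p ∈ P := by
          rw [← hPf]
          exact Nat.primeFactors_mono (Nat.dvd_of_mem_divisors hl) hsq.ne_zero hp
        have h1 : (2 * K : ℝ) < p := by exact_mod_cast hPK p hpP
        rw [card_range]
        exact div_nonneg (by linarith) (by linarith)
      · exact le_rfl
    have hinj : Set.InjOn (fun s : Finset ℕ => ∏ p ∈ s, p)
        (P.powerset.filter (fun s => s.card ≤ J) : Finset (Finset ℕ)) := by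
      intro s hs t ht h
      have hs' := Finset.mem_powerset.1 (mem_filter.1 (mem_coe.1 hs)).1
      have ht' := Finset.mem_powerset.1 (mem_filter.1 (mem_coe.1 ht)).1
      have h1 := congrArg Nat.primeFactors h
      simp only at h1
      rwa [hpr s hs', hpr t ht'] at h1
    calc ∑ s ∈ P.powerset.filter (fun s => s.card ≤ J), ∏ p ∈ s, w p
        ≤ ∑ s ∈ P.powerset.filter (fun s => s.card ≤ J),
          (if (((∏ p ∈ s, p : ℕ)) : ℝ) ^ 2 ≤ (Z:ℝ) ^ (2 * J) then
            ∏ p ∈ (∏ p ∈ s, p).primeFactors,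
              (((range K).card : ℕ) : ℝ) / (p - ((range K).card : ℕ)) else 0) := by
          refine Finset.sum_le_sum fun s hs => ?_
          have hs' := Finset.mem_powerset.1 (mem_filter.1 hs).1
          have hc := (mem_filter.1 hs).2
          rw [if_pos, hpr s hs']
          · refine Finset.prod_le_prod (fun p _ => by positivity) fun p hp => ?_
            have h1 : (2 * K : ℝ) < p := by exact_mod_cast hPK p (hs' hp)
            rw [card_range, hw]
            exact div_le_div_of_nonneg_left (by linarith) (by linarith) (by linarith)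
          · rw [pow_mul']
            refine pow_le_pow_left₀ (by positivity) ?_ 2
            push_cast
            calc ∏ p ∈ s, (p:ℝ) ≤ ∏ _p ∈ s, (Z:ℝ) :=
                  Finset.prod_le_prod (fun p _ => by positivity) fun p hp => by
                    exact_mod_cast hPZ p (hs' hp)
              _ = (Z:ℝ) ^ s.card := by rw [Finset.prod_const]
              _ ≤ (Z:ℝ) ^ J := pow_le_pow_right₀ hZR hc
      _ = ∑ l ∈ (P.powerset.filter (fun s => s.card ≤ J)).image (fun s => ∏ p ∈ s, p),
          (if (l : ℝ) ^ 2 ≤ (Z:ℝ) ^ (2 * J) then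
            ∏ p ∈ l.primeFactors,
              (((range K).card : ℕ) : ℝ) / (p - ((range K).card : ℕ)) else 0) := by
          rw [Finset.sum_image hinj]
      _ ≤ _ := by
          refine Finset.sum_le_sum_of_subset_of_nonneg ?_ (fun l hl _ => hg0 l hl)
          intro l hl
          obtain ⟨s, hs, rfl⟩ := mem_image.1 hl
          rw [Nat.mem_divisors]
          exact ⟨Finset.prod_dvd_prod_of_subset _ _ _ (Finset.mem_powerset.1 (mem_filter.1 hs).1),
            hsq.ne_zero⟩
  · -- remainder
    set y : ℝ := (Z:ℝ) ^ (2 * J) with hy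
    have hy1 : 1 ≤ y := one_le_pow₀ hZR
    have hterm : ∀ d ∈ Q.divisors, (if (d : ℝ) ≤ y then
        (3 : ℝ) ^ ω d * ∏ p ∈ d.primeFactors, (((range K).card : ℕ) : ℝ) else 0) ≤
        (if (d : ℝ) ≤ y then y ^ 3 else 0) := by
      intro d hd
      split_ifs with hdy
      · have hdQ := Nat.dvd_of_mem_divisors hd
        have hdsq := hsq.squarefree_of_dvd hdQ
        have h1 := three_pow_le hdsq
        have h2 : ∏ p ∈ d.primeFactors, (((range K).card : ℕ) : ℝ) ≤ d := by
          conv_rhs => rw [← Nat.prod_primeFactors_of_squarefree hdsq]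
          push_cast
          refine Finset.prod_le_prod (fun _ _ => by positivity) fun p hp => ?_
          have hpP : p ∈ P := by
            rw [← hPf]
            exact Nat.primeFactors_mono hdQ hsq.ne_zero hp
          have := hPK p hpP
          rw [card_range]
          exact_mod_cast (by omega : K ≤ p)
        calc (3 : ℝ) ^ ω d * ∏ p ∈ d.primeFactors, (((range K).card : ℕ) : ℝ)
            ≤ (d:ℝ) ^ 2 * d := by gcongr
          _ = (d:ℝ) ^ 3 := by ring
          _ ≤ y ^ 3 := by gcongr
      · exact le_rfl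
    refine (Finset.sum_le_sum hterm).trans ?_
    rw [← Finset.sum_filter, Finset.sum_const, nsmul_eq_mul]
    have hcard : ((Q.divisors.filter (fun d : ℕ => (d:ℝ) ≤ y)).card : ℝ) ≤ y := by
      have h1 : Q.divisors.filter (fun d : ℕ => (d:ℝ) ≤ y) ⊆ Icc 1 (Z ^ (2 * J)) := by
        intro d hd
        rw [mem_filter] at hd
        rw [mem_Icc]
        refine ⟨Nat.pos_of_mem_divisors hd.1, ?_⟩
        have := hd.2
        rw [hy] at this
        exact_mod_cast this
      have h2 := Finset.card_le_card h1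
      rw [Nat.card_Icc, Nat.add_sub_cancel] at h2
      calc ((Q.divisors.filter (fun d : ℕ => (d:ℝ) ≤ y)).card : ℝ) ≤ ((Z ^ (2 * J) : ℕ) : ℝ) :=
            Nat.cast_le.2 h2
        _ = y := by rw [hy]; push_cast; rfl
    calc ((Q.divisors.filter (fun d : ℕ => (d:ℝ) ≤ y)).card : ℝ) * y ^ 3 ≤ y * y ^ 3 := by gcongr
      _ = (Z:ℝ) ^ (8 * J) := by
        rw [hy, ← pow_mul, ← pow_add]
        congr 1
        ring

end Pool.Agent.Mos26
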