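import Pool.Agent.Mos26.SieveJ

/-!
# The exceptional set
-/

open Finset Nat Filter Topology

namespace Pool.Agent.Mos26
open Pool.Agent.ANT Pool.Agent.StableX

/-- Reciprocals of the primes of a class in a dyadic interval. -/
lemma dyadic_lower (q : ℕ) [NeZero q] (a : ZMod q) (ha : IsUnit a) :
    ∃ c : ℝ, 0 < c ∧ ∃ i0 : ℕ, 1 ≤ i0 ∧ ∀ i : ℕ, i0 ≤ i →
      c / i ≤ ∑ p ∈ (Ioc (2 ^ i) (2 ^ (i + 1))).filter (fun p : ℕ => p.Prime ∧ (p : ZMod q) = a),
        (1:ℝ) / p := by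
  obtain ⟨C1, hC1, hθ⟩ := theta_ap 1 (show (0:ℝ) < 1 by norm_num)
  have hq : (0:ℝ) < q := by exact_mod_cast Nat.pos_of_ne_zero (NeZero.ne q)
  obtain ⟨ft, hfdef⟩ : ∃ ft, ft = q.totient := ⟨_, rfl⟩
  have hf0 : 0 < ft := hfdef ▸ Nat.totient_pos.mpr (Nat.pos_of_ne_zero (NeZero.ne q))
  have hf : (0:ℝ) < ft := by exact_mod_cast hf0
  have hlog2 : (1:ℝ) / 2 ≤ Real.log 2 := by linarith [Real.log_two_gt_d9]
  have hlog2' : Real.log 2 ≤ 1 := by linarith [Real.log_two_lt_d9]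
  refine ⟨1 / (8 * ft), by positivity, max 2 ⌈16 * (C1 * q) * ft⌉₊,
    le_max_of_le_left (by norm_num), fun i hi => ?_⟩
  have hi2 : 2 ≤ i := (le_max_left _ _).trans hi
  have hiC : 16 * (C1 * q) * ft ≤ i :=
    (Nat.le_ceil _).trans (by exact_mod_cast (le_max_right _ _).trans hi)
  have hiR : (2:ℝ) ≤ i := by exact_mod_cast hi2
  have h2i : (0:ℝ) < 2 ^ i := by positivity
  have hb : ∀ j : ℕ, i ≤ j → j ≤ i + 1 →
      |∑ p ∈ (Finset.Icc 1 (2 ^ j)).filter (fun p : ℕ => p.Prime ∧ (p : ZMod q) = a), Real.log p -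
        (2:ℝ) ^ j / ft| ≤ 4 * (C1 * q) * 2 ^ i / i := by
    intro j hj hj1
    have h1 := hθ q a ha ((2 ^ j : ℕ) : ℝ) (by
      have : 2 ^ 2 ≤ 2 ^ j := Nat.pow_le_pow_right (by norm_num) (by omega)
      exact_mod_cast (by omega : 3 ≤ 2 ^ j))
    rw [Nat.floor_natCast, Real.rpow_one, ← hfdef, pow_one] at h1
    push_cast at h1
    refine h1.trans ?_
    rw [Real.log_pow]
    have h2 : (i:ℝ) / 2 ≤ j * Real.log 2 := by
      have : (i:ℝ) ≤ j := by exact_mod_cast hj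
      nlinarith
    have h3 : (2:ℝ) ^ j ≤ 2 ^ (i + 1) := pow_le_pow_right₀ (by norm_num) hj1
    calc C1 * q * 2 ^ j / (j * Real.log 2) ≤ C1 * q * 2 ^ (i + 1) / ((i:ℝ) / 2) := by gcongr
      _ = 4 * (C1 * q) * 2 ^ i / i := by
        rw [pow_succ]
        field_simp
        ring
  have h1 := hb (i + 1) (by omega) le_rfl
  have h2 := hb i le_rfl (by omega)
  have hle : 2 ^ i ≤ 2 ^ (i + 1) := Nat.pow_le_pow_right (by norm_num) (by omega)
  have hsub : (Finset.Icc 1 (2 ^ (i + 1))).filter (fun p : ℕ => p.Prime ∧ (p : ZMod q) = a) =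
      (Finset.Icc 1 (2 ^ i)).filter (fun p : ℕ => p.Prime ∧ (p : ZMod q) = a) ∪
      (Finset.Ioc (2 ^ i) (2 ^ (i + 1))).filter (fun p : ℕ => p.Prime ∧ (p : ZMod q) = a) := by
    rw [← Finset.filter_union]
    congr 1
    ext m
    simp only [mem_union, mem_Icc, mem_Ioc]
    omega
  have hdisj : Disjoint ((Finset.Icc 1 (2 ^ i)).filter
      (fun p : ℕ => p.Prime ∧ (p : ZMod q) = a))
      ((Finset.Ioc (2 ^ i) (2 ^ (i + 1))).filter
        (fun p : ℕ => p.Prime ∧ (p : ZMod q) = a)) := by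
    rw [Finset.disjoint_left]
    intro m hm hm'
    have := (mem_Icc.1 (mem_filter.1 hm).1).2
    have := (mem_Ioc.1 (mem_filter.1 hm').1).1
    omega
  rw [hsub, Finset.sum_union hdisj] at h1
  have hlow : (2:ℝ) ^ i / (2 * ft) ≤ ∑ p ∈ (Finset.Ioc (2 ^ i) (2 ^ (i + 1))).filter
      (fun p : ℕ => p.Prime ∧ (p : ZMod q) = a), Real.log p := by
    have h3 := (abs_le.1 h1).1
    have h4 := (abs_le.1 h2).2
    have h5 : (2:ℝ) ^ (i + 1) / ft = 2 ^ i / ft + 2 ^ i / ft := by rw [pow_succ]; ring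
    have h6 : (2:ℝ) ^ i / ft = 2 ^ i / (2 * ft) + 2 ^ i / (2 * ft) := by
      field_simp
      ring
    have h7 : 4 * (C1 * q) * 2 ^ i / i + 4 * (C1 * q) * 2 ^ i / i ≤ 2 ^ i / (2 * ft) := by
      rw [← add_div, div_le_div_iff₀ (by linarith) (by positivity)]
      calc (4 * (C1 * q) * 2 ^ i + 4 * (C1 * q) * 2 ^ i) * (2 * ft)
          = 2 ^ i * (16 * (C1 * q) * ft) := by ring
        _ ≤ 2 ^ i * i := by gcongr
    linarith
  have hterm : ∀ p ∈ (Finset.Ioc (2 ^ i) (2 ^ (i + 1))).filter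
      (fun p : ℕ => p.Prime ∧ (p : ZMod q) = a),
      Real.log p / (2 ^ (i + 1) * (i + 1)) ≤ 1 / (p:ℝ) := by
    intro p hp
    have hp1 := mem_Ioc.1 (mem_filter.1 hp).1
    have hp0 : (0:ℝ) < p := by
      have : 0 < 2 ^ i := by positivity
      exact_mod_cast (by omega : 0 < p)
    have hp2 : (p:ℝ) ≤ 2 ^ (i + 1) := by exact_mod_cast hp1.2
    have h3 : Real.log p ≤ i + 1 := by
      calc Real.log p ≤ Real.log (2 ^ (i + 1)) := Real.log_le_log hp0 hp2
        _ = (i + 1) * Real.log 2 := by rw [Real.log_pow]; push_cast; ring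
        _ ≤ (i + 1) * 1 := by gcongr
        _ = i + 1 := mul_one _
    rw [div_le_div_iff₀ (by positivity) hp0]
    calc Real.log p * p ≤ (i + 1) * 2 ^ (i + 1) := by gcongr
      _ = 1 * (2 ^ (i + 1) * (i + 1)) := by ring
  calc 1 / (8 * (ft:ℝ)) / i ≤ (2:ℝ) ^ i / (2 * ft) / (2 ^ (i + 1) * (i + 1)) := by
        rw [div_div, div_div, div_le_div_iff₀ (by positivity) (by positivity), pow_succ]
        have : 1 * (2 * (ft:ℝ) * (2 ^ i * 2 * (i + 1))) = 2 ^ i * (ft * (4 * i + 4)) := by ring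
        rw [this]
        have h8 : (2:ℝ) ^ i * (8 * ft * i) = 2 ^ i * (ft * (8 * i)) := by ring
        rw [h8]
        gcongr
        linarith
    _ ≤ (∑ p ∈ (Finset.Ioc (2 ^ i) (2 ^ (i + 1))).filter
      (fun p : ℕ => p.Prime ∧ (p : ZMod q) = a), Real.log p) / (2 ^ (i + 1) * (i + 1)) := by
        gcongr
    _ = ∑ p ∈ (Finset.Ioc (2 ^ i) (2 ^ (i + 1))).filter
      (fun p : ℕ => p.Prime ∧ (p : ZMod q) = a), Real.log p / (2 ^ (i + 1) * (i + 1)) := by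
        rw [Finset.sum_div]
    _ ≤ _ := Finset.sum_le_sum hterm

lemma primes_lower (q : ℕ) [NeZero q] (a : ZMod q) (ha : IsUnit a) :
    ∃ c : ℝ, 0 < c ∧ ∃ i0 : ℕ, 1 ≤ i0 ∧ ∀ i1 : ℕ, i0 ≤ i1 → ∀ I : ℕ, i1 ≤ I →
      c * Real.log (I / i1) ≤
        ∑ p ∈ (Ioc (2 ^ i1) (2 ^ I)).filter (fun p : ℕ => p.Prime ∧ (p : ZMod q) = a),
        (1:ℝ) / p := by
  obtain ⟨c, hc, i0, hi0, h⟩ := dyadic_lower q a ha
  refine ⟨c, hc, i0, hi0, fun i1 hi1 I hI => ?_⟩
  have hi1R : (0:ℝ) < i1 := by exact_mod_cast (by omega : 0 < i1)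
  induction I, hI using Nat.le_induction with
  | base => simp [div_self hi1R.ne']
  | succ I hI ih =>
    have hIR : (0:ℝ) < I := by exact_mod_cast (by omega : 0 < I)
    have hle : 2 ^ I ≤ 2 ^ (I + 1) := Nat.pow_le_pow_right (by norm_num) (by omega)
    have hle1 : 2 ^ i1 ≤ 2 ^ I := Nat.pow_le_pow_right (by norm_num) hI
    have hsub : (Finset.Ioc (2 ^ i1) (2 ^ (I + 1))).filter
        (fun p : ℕ => p.Prime ∧ (p : ZMod q) = a) =
        (Finset.Ioc (2 ^ i1) (2 ^ I)).filter (fun p : ℕ => p.Prime ∧ (p : ZMod q) = a) ∪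
        (Finset.Ioc (2 ^ I) (2 ^ (I + 1))).filter (fun p : ℕ => p.Prime ∧ (p : ZMod q) = a) := by
      rw [← Finset.filter_union]
      congr 1
      ext m
      simp only [mem_union, mem_Ioc]
      omega
    have hdisj : Disjoint ((Finset.Ioc (2 ^ i1) (2 ^ I)).filter
        (fun p : ℕ => p.Prime ∧ (p : ZMod q) = a))
        ((Finset.Ioc (2 ^ I) (2 ^ (I + 1))).filter
          (fun p : ℕ => p.Prime ∧ (p : ZMod q) = a)) := by
      rw [Finset.disjoint_left]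
      intro m hm hm'
      have := (mem_Ioc.1 (mem_filter.1 hm).1).2
      have := (mem_Ioc.1 (mem_filter.1 hm').1).1
      omega
    rw [hsub, Finset.sum_union hdisj]
    have h1 := h I (hi1.trans hI)
    have h2 : Real.log (((I + 1 : ℕ) : ℝ) / i1) ≤ Real.log (I / i1) + 1 / I := by
      have h3 : ((I + 1 : ℕ) : ℝ) / i1 = (I / i1) * (1 + 1 / I) := by
        push_cast
        field_simp
      rw [h3, Real.log_mul (by positivity) (by positivity)]
      have h4 : Real.log (1 + 1 / (I:ℝ)) ≤ 1 + 1 / I - 1 :=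
        Real.log_le_sub_one_of_pos (by positivity)
      linarith
    calc c * Real.log (((I + 1 : ℕ) : ℝ) / i1) ≤ c * (Real.log (I / i1) + 1 / I) := by gcongr
      _ = c * Real.log (I / i1) + c / I := by ring
      _ ≤ _ := add_le_add ih h1

end Pool.Agent.Mos26
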