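import Pool.Agent.Mos26.Sparse

/-!
# The exceptional set: conclusion
-/

open Finset Nat Filter Topology

namespace Pool.Agent.Mos26
open Pool.Agent.ANT Pool.Agent.StableX

open Classical in
/-- Sieve bound for all dyadic sizes of `k`. -/
lemma sieve_all (q : ℕ) [NeZero q] (a : ZMod q) (ha : IsUnit a) (A : ℕ) :
    ∃ K0 : ℕ, 1 ≤ K0 ∧ ∀ᶠ x : ℕ in atTop, ∀ i : ℕ, K0 ≤ 2 ^ i → (2 ^ i) ^ 64 ≤ x →
      (((range x).filter (fun n => ∀ p : ℕ, p.Prime → (p : ZMod q) = a → 2 ^ (i + 1) < p →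
        2 ^ i ≤ n % p)).card : ℝ) ≤ x / Real.log x ^ (A + 1) + Real.sqrt x := by
  obtain ⟨c, hc, i0, hi0, hpl⟩ := primes_lower q a ha
  have hlog2 : (1:ℝ) / 2 ≤ Real.log 2 := by linarith [Real.log_two_gt_d9]
  have hlog2' : Real.log 2 ≤ 1 := by linarith [Real.log_two_lt_d9]
  refine ⟨max (2 ^ i0) ⌈6 * ((A:ℝ) + 2) / c⌉₊, le_max_of_le_left Nat.one_le_two_pow, ?_⟩
  have hLL : Tendsto (fun x : ℕ => Real.log (Real.log (x:ℝ))) atTop atTop :=
    Real.tendsto_log_atTop.comp tendsto_log_nat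
  have hpow : ∀ᶠ x : ℕ in atTop,
      (128 * ((A:ℝ) + 3) ^ 2) ^ 2 * Real.log (Real.log (x:ℝ)) ^ 4 ≤ Real.log x := by
    have h1 : ∀ᶠ y : ℝ in atTop, ‖Real.log y ^ 4‖ ≤
        (1 / (128 * ((A:ℝ) + 3) ^ 2) ^ 2) * ‖y‖ :=
      Real.isLittleO_pow_log_id_atTop.bound (by positivity)
    filter_upwards [tendsto_log_nat.eventually h1, hLL.eventually_ge_atTop 0,
      tendsto_log_nat.eventually_ge_atTop 0] with x hx hx0 hx1
    rw [Real.norm_eq_abs, Real.norm_eq_abs, abs_of_nonneg (by positivity),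
      abs_of_nonneg hx1] at hx
    calc (128 * ((A:ℝ) + 3) ^ 2) ^ 2 * Real.log (Real.log (x:ℝ)) ^ 4
        ≤ (128 * ((A:ℝ) + 3) ^ 2) ^ 2 * (1 / (128 * ((A:ℝ) + 3) ^ 2) ^ 2 * Real.log x) := by
          gcongr
      _ = Real.log x := by field_simp
  filter_upwards [tendsto_log_nat.eventually_ge_atTop 1,
    tendsto_log_nat.eventually_ge_atTop (2 / c), hLL.eventually_ge_atTop 1, hpow]
    with x hL1 hLc hM1 hML i hKi hix
  have hi0i : i0 ≤ i := by
    have := (le_max_left _ _).trans hKi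
    exact (Nat.pow_le_pow_iff_right (by norm_num)).1 this
  have hKc : 6 * ((A:ℝ) + 2) / c ≤ 2 ^ i := by
    refine (Nat.le_ceil _).trans ?_
    exact_mod_cast (le_max_right _ _).trans hKi
  set L := Real.log x with hLdef
  set M := Real.log L with hMdef
  have hL0 : 0 < L := by linarith
  have hx0 : (0:ℝ) < x := by
    rcases Nat.eq_zero_or_pos x with h | h
    · rw [hLdef, h] at hL0; simp at hL0
    · exact_mod_cast h
  -- a general reduction
  have hred : ∀ I J : ℕ, i + 1 ≤ I → ((2:ℝ) ^ I) ^ (8 * J) ≤ Real.sqrt x →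
      L ^ (A + 1) ≤ EJ (fun p => ((2 ^ i : ℕ) : ℝ) / p) ((Ioc (2 ^ (i + 1)) (2 ^ I)).filter
        (fun p : ℕ => p.Prime ∧ (p : ZMod q) = a)) J →
      (((range x).filter (fun n => ∀ p : ℕ, p.Prime → (p : ZMod q) = a → 2 ^ (i + 1) < p →
        2 ^ i ≤ n % p)).card : ℝ) ≤ x / L ^ (A + 1) + Real.sqrt x := by
    intro I J hI hZ hE
    set P := (Ioc (2 ^ (i + 1)) (2 ^ I)).filter (fun p : ℕ => p.Prime ∧ (p : ZMod q) = a) with hPdef
    have hEpos : 0 < EJ (fun p => ((2 ^ i : ℕ) : ℝ) / p) P J := lt_of_lt_of_le (by positivity) hE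
    have h1 := sieve_J (2 ^ i) (2 ^ I) J Nat.one_le_two_pow Nat.one_le_two_pow P
      (fun p hp => (mem_filter.1 hp).2.1)
      (fun p hp => by
        have := (mem_Ioc.1 (mem_filter.1 hp).1).1
        rw [pow_succ] at this
        omega)
      (fun p hp => (mem_Ioc.1 (mem_filter.1 hp).1).2) x hEpos
    have h2 : (range x).filter (fun n => ∀ p : ℕ, p.Prime → (p : ZMod q) = a → 2 ^ (i + 1) < p →
        2 ^ i ≤ n % p) ⊆ (range x).filter (fun n => ∀ p ∈ P, 2 ^ i ≤ n % p) := by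
      intro n hn
      rw [mem_filter] at hn ⊢
      refine ⟨hn.1, fun p hp => ?_⟩
      have hp' := mem_filter.1 hp
      exact hn.2 p hp'.2.1 hp'.2.2 (mem_Ioc.1 hp'.1).1
    calc (((range x).filter (fun n => ∀ p : ℕ, p.Prime → (p : ZMod q) = a → 2 ^ (i + 1) < p →
        2 ^ i ≤ n % p)).card : ℝ) ≤ (((range x).filter (fun n => ∀ p ∈ P, 2 ^ i ≤ n % p)).card : ℝ) :=
          by exact_mod_cast Finset.card_le_card h2
      _ ≤ x / EJ (fun p => ((2 ^ i : ℕ) : ℝ) / p) P J + ((2 ^ I : ℕ) : ℝ) ^ (8 * J) := h1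
      _ ≤ x / L ^ (A + 1) + Real.sqrt x := by
        push_cast at hE hZ ⊢
        gcongr
  have hw0 : ∀ I : ℕ, ∀ p ∈ (Ioc (2 ^ (i + 1)) (2 ^ I)).filter
      (fun p : ℕ => p.Prime ∧ (p : ZMod q) = a), (0:ℝ) ≤ ((2 ^ i : ℕ) : ℝ) / p :=
    fun I p hp => by positivity
  have hw1 : ∀ I : ℕ, ∀ p ∈ (Ioc (2 ^ (i + 1)) (2 ^ I)).filter
      (fun p : ℕ => p.Prime ∧ (p : ZMod q) = a), ((2 ^ i : ℕ) : ℝ) / p ≤ 1 / 2 := by
    intro I p hp
    have h1 := (mem_Ioc.1 (mem_filter.1 hp).1).1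
    have h2 : ((2 ^ (i + 1) : ℕ) : ℝ) < p := by exact_mod_cast h1
    have h3 : (0:ℝ) < ((2 ^ (i + 1) : ℕ) : ℝ) := by positivity
    rw [div_le_div_iff₀ (by linarith) (by norm_num)]
    push_cast at h2 ⊢
    rw [pow_succ] at h2
    linarith
  have hsumw : ∀ I : ℕ, ∑ p ∈ (Ioc (2 ^ (i + 1)) (2 ^ I)).filter
      (fun p : ℕ => p.Prime ∧ (p : ZMod q) = a), ((2 ^ i : ℕ) : ℝ) / p =
      2 ^ i * ∑ p ∈ (Ioc (2 ^ (i + 1)) (2 ^ I)).filter
      (fun p : ℕ => p.Prime ∧ (p : ZMod q) = a), (1:ℝ) / p := by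
    intro I
    rw [Finset.mul_sum]
    refine Finset.sum_congr rfl fun p _ => ?_
    push_cast
    ring
  by_cases hcase : L ^ (A + 2) ≤ 2 ^ i
  · -- large K
    refine hred (2 * (i + 1)) 1 (by omega) ?_ ?_
    · apply Real.le_sqrt_of_sq_le
      have h1 : (((2:ℝ) ^ (2 * (i + 1))) ^ (8 * 1)) ^ 2 ≤ ((2:ℝ) ^ i) ^ 64 := by
        rw [← pow_mul, ← pow_mul, ← pow_mul]
        refine pow_le_pow_right₀ (by norm_num) ?_
        have : 1 ≤ i := hi0.trans hi0i
        omega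
      exact h1.trans (by exact_mod_cast hix)
    · refine le_trans ?_ (EJ_one_ge _ _ (hw0 _))
      rw [hsumw]
      have h1 := hpl (i + 1) (by omega) (2 * (i + 1)) (by omega)
      have h2 : ((2 * (i + 1) : ℕ) : ℝ) / ((i + 1 : ℕ) : ℝ) = 2 := by
        push_cast
        field_simp
      rw [h2] at h1
      have h3 : 1 ≤ L * (c * Real.log 2) := by
        rw [div_le_iff₀ hc] at hLc
        have h4 : 0 < L * c := by positivity
        nlinarith
      calc L ^ (A + 1) = L ^ (A + 1) * 1 := (mul_one _).symm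
        _ ≤ L ^ (A + 1) * (L * (c * Real.log 2)) := by gcongr
        _ = L ^ (A + 2) * (c * Real.log 2) := by ring
        _ ≤ 2 ^ i * ∑ p ∈ (Ioc (2 ^ (i + 1)) (2 ^ (2 * (i + 1)))).filter
          (fun p : ℕ => p.Prime ∧ (p : ZMod q) = a), (1:ℝ) / p := by gcongr
  · -- small K
    push Not at hcase
    have hA0 : (0:ℝ) ≤ A := Nat.cast_nonneg A
    obtain ⟨J, hJdef⟩ : ∃ J, J = ⌈((A:ℝ) + 1) * M / Real.log 2⌉₊ := ⟨_, rfl⟩
    have hJ1 : ((A:ℝ) + 1) * M / Real.log 2 ≤ J := by rw [hJdef]; exact Nat.le_ceil _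
    have hJ2 : (J:ℝ) ≤ 2 * ((A:ℝ) + 2) * M := by
      have h1 : (J:ℝ) < ((A:ℝ) + 1) * M / Real.log 2 + 1 := by
        rw [hJdef]; exact Nat.ceil_lt_add_one (by positivity)
      have h2 : ((A:ℝ) + 1) * M / Real.log 2 ≤ ((A:ℝ) + 1) * M / (1 / 2) := by gcongr
      have h3 : ((A:ℝ) + 1) * M / (1 / 2) = 2 * ((A:ℝ) + 1) * M := by ring
      nlinarith
    have hJpos : (0:ℝ) < J := lt_of_lt_of_le (by positivity) hJ1
    have h2J : L ^ (A + 1) ≤ 2 ^ J := by
      have h1 : Real.log (L ^ (A + 1)) ≤ Real.log (2 ^ J) := by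
        rw [Real.log_pow, Real.log_pow]
        push_cast
        rw [div_le_iff₀ (by linarith)] at hJ1
        exact hJ1
      exact (Real.log_le_log_iff (by positivity) (by positivity)).1 h1
    obtain ⟨I, hIdef⟩ : ∃ I, I = ⌊L / (16 * J)⌋₊ := ⟨_, rfl⟩
    have hI1 : (I:ℝ) ≤ L / (16 * J) := by
      rw [hIdef]; exact Nat.floor_le (by positivity)
    have hI2 : L / (16 * J) - 1 ≤ I := by
      rw [hIdef]
      have := Nat.lt_floor_add_one (L / (16 * J))
      linarith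
    -- bound for i + 1
    have hi1 : ((i + 1 : ℕ) : ℝ) ≤ 2 * ((A:ℝ) + 3) * M := by
      have h1 : Real.log (2 ^ i) < Real.log (L ^ (A + 2)) :=
        Real.log_lt_log (by positivity) hcase
      rw [Real.log_pow, Real.log_pow] at h1
      push_cast at h1 ⊢
      have hi0' : (0:ℝ) ≤ i := Nat.cast_nonneg i
      nlinarith
    have hsqL : 0 < Real.sqrt L := Real.sqrt_pos.2 hL0
    have hsqL2 : Real.sqrt L * Real.sqrt L = L := Real.mul_self_sqrt hL0.le
    have hsqL1 : 1 ≤ Real.sqrt L := Real.one_le_sqrt.2 hL1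
    have hkey : 128 * ((A:ℝ) + 3) ^ 2 * M ^ 2 ≤ Real.sqrt L := by
      apply Real.le_sqrt_of_sq_le
      calc (128 * ((A:ℝ) + 3) ^ 2 * M ^ 2) ^ 2 = (128 * ((A:ℝ) + 3) ^ 2) ^ 2 * M ^ 4 := by ring
        _ ≤ L := hML
    have hI3 : Real.sqrt L * ((i + 1 : ℕ) : ℝ) ≤ I := by
      refine le_trans ?_ hI2
      have h1 : L / (32 * ((A:ℝ) + 2) * M) ≤ L / (16 * J) := by
        apply div_le_div_of_nonneg_left hL0.le (by positivity)
        linarith
      have h2 : Real.sqrt L * ((i + 1 : ℕ) : ℝ) ≤ Real.sqrt L * (2 * ((A:ℝ) + 3) * M) := by gcongr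
      have h3 : Real.sqrt L * (2 * ((A:ℝ) + 3) * M) + 1 ≤ L / (32 * ((A:ℝ) + 2) * M) := by
        rw [le_div_iff₀ (by positivity)]
        have h4 : 1 ≤ Real.sqrt L * (2 * ((A:ℝ) + 3) * M) := by
          have : 1 ≤ 2 * ((A:ℝ) + 3) * M := by nlinarith
          nlinarith
        calc (Real.sqrt L * (2 * ((A:ℝ) + 3) * M) + 1) * (32 * ((A:ℝ) + 2) * M)
            ≤ (Real.sqrt L * (2 * ((A:ℝ) + 3) * M) + Real.sqrt L * (2 * ((A:ℝ) + 3) * M)) *
              (32 * ((A:ℝ) + 3) * M) := by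
              gcongr
              linarith
          _ = Real.sqrt L * (128 * ((A:ℝ) + 3) ^ 2 * M ^ 2) := by ring
          _ ≤ Real.sqrt L * Real.sqrt L := by gcongr
          _ = L := hsqL2
      linarith
    have hiI : i + 1 ≤ I := by
      have h1 : ((i + 1 : ℕ) : ℝ) ≤ I := by
        refine le_trans ?_ hI3
        have : (0:ℝ) ≤ ((i + 1 : ℕ) : ℝ) := Nat.cast_nonneg _
        nlinarith
      exact_mod_cast h1
    refine hred I J hiI ?_ ?_
    · apply Real.le_sqrt_of_sq_le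
      have h1 : (((2:ℝ) ^ I) ^ (8 * J)) ^ 2 = 2 ^ (16 * I * J) := by
        rw [← pow_mul, ← pow_mul]; congr 1; ring
      rw [h1]
      have h2 : Real.log ((2:ℝ) ^ (16 * I * J)) ≤ Real.log x := by
        rw [Real.log_pow]
        push_cast
        rw [le_div_iff₀ (by positivity)] at hI1
        calc 16 * (I:ℝ) * J * Real.log 2 ≤ 16 * (I:ℝ) * J * 1 := by gcongr
          _ = I * (16 * J) := by ring
          _ ≤ L := hI1
      exact (Real.log_le_log_iff (by positivity) hx0).1 h2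
    · refine h2J.trans (EJ_ge _ J _ (hw0 I) (hw1 I) ?_)
      rw [hsumw]
      have h1 := hpl (i + 1) (by omega) I hiI
      have h2 : M / 2 ≤ Real.log (I / ((i + 1 : ℕ) : ℝ)) := by
        have h3 : Real.sqrt L ≤ I / ((i + 1 : ℕ) : ℝ) := by
          rw [le_div_iff₀ (by positivity)]
          exact hI3
        calc M / 2 = Real.log (Real.sqrt L) := by rw [Real.log_sqrt hL0.le]
          _ ≤ _ := Real.log_le_log hsqL h3
      rw [div_le_iff₀ hc] at hKc
      have hM0 : 0 < M := by linarith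
      calc 3 / 2 * (J:ℝ) ≤ 3 / 2 * (2 * ((A:ℝ) + 2) * M) := by gcongr
        _ = (6 * ((A:ℝ) + 2)) * (M / 2) := by ring
        _ ≤ (2 ^ i * c) * (M / 2) := by gcongr
        _ = 2 ^ i * (c * (M / 2)) := by ring
        _ ≤ 2 ^ i * (c * Real.log (I / ((i + 1 : ℕ) : ℝ))) := by gcongr
        _ ≤ 2 ^ i * ∑ p ∈ (Ioc (2 ^ (i + 1)) (2 ^ I)).filter
          (fun p : ℕ => p.Prime ∧ (p : ZMod q) = a), (1:ℝ) / p := by gcongr

open Classical in
/-- For every unit residue class `a` modulo `q` and every `A` there are `k₀`, `C` such that all but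
at most `C x / (log x) ^ A` of the `n < x` have the property that for every `k` with
`k₀ ≤ k ≤ n / 2` there is a prime `p ≡ a (mod q)`, `p > k`, dividing `binom(n, k)`. -/
theorem sparse_all (q : ℕ) [NeZero q] (a : ZMod q) (ha : IsUnit a) (A : ℕ) :
    ∃ k₀ : ℕ, ∃ C : ℝ, ∀ x : ℕ, 2 ≤ x →
      (((range x).filter (fun n : ℕ => ∃ k : ℕ, k₀ ≤ k ∧ 2 * k ≤ n ∧
        ∀ p : ℕ, p.Prime → (p : ZMod q) = a → k < p → ¬ p ∣ n.choose k)).card : ℝ) ≤
      C * (x / Real.log x ^ A) := by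
  obtain ⟨K0, hK0, hs⟩ := sieve_all q a ha A
  obtain ⟨kB, hB⟩ := eventually_atTop.1 (range_all q a ha 64)
  have hlim := (log_pow_div_sqrt (A + 1)).eventually_lt_const (show (0:ℝ) < 1 / 3 by norm_num)
  obtain ⟨x0, hx0⟩ := eventually_atTop.1 ((hs.and hlim).and
    (tendsto_log_nat.eventually_ge_atTop 1))
  have hlog2 : (1:ℝ) / 2 ≤ Real.log 2 := by linarith [Real.log_two_gt_d9]
  refine ⟨max kB (2 * K0), max 4 (Real.log (x0 + 2) ^ A), fun x hx => ?_⟩
  have hxR : (2:ℝ) ≤ x := by exact_mod_cast hx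
  have hlogx : 0 < Real.log x := Real.log_pos (by linarith)
  rcases lt_or_ge x x0 with hxx | hxx
  · -- small x
    have h1 : (((range x).filter (fun n : ℕ => ∃ k : ℕ, max kB (2 * K0) ≤ k ∧ 2 * k ≤ n ∧
        ∀ p : ℕ, p.Prime → (p : ZMod q) = a → k < p → ¬ p ∣ n.choose k)).card : ℝ) ≤ x := by
      have := Finset.card_filter_le (range x) (fun n : ℕ => ∃ k : ℕ, max kB (2 * K0) ≤ k ∧
        2 * k ≤ n ∧ ∀ p : ℕ, p.Prime → (p : ZMod q) = a → k < p → ¬ p ∣ n.choose k)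
      rw [card_range] at this
      exact_mod_cast this
    refine h1.trans ?_
    have h2 : Real.log x ^ A ≤ Real.log (x0 + 2) ^ A := by
      refine pow_le_pow_left₀ hlogx.le (Real.log_le_log (by linarith) ?_) A
      have : (x:ℝ) < x0 := by exact_mod_cast hxx
      linarith
    calc (x:ℝ) = Real.log x ^ A * (x / Real.log x ^ A) := by field_simp
      _ ≤ max 4 (Real.log (x0 + 2) ^ A) * (x / Real.log x ^ A) := by
        gcongr
        exact h2.trans (le_max_right _ _)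
  · obtain ⟨⟨h1, h2⟩, h3⟩ := hx0 x hxx
    set L := Real.log x with hLdef
    set S : ℕ → Finset ℕ := fun i => (range x).filter (fun n => ∀ p : ℕ, p.Prime →
      (p : ZMod q) = a → 2 ^ (i + 1) < p → 2 ^ i ≤ n % p) with hS
    set R : Finset ℕ := (range (Nat.log 2 x + 1)).filter
      (fun i => K0 ≤ 2 ^ i ∧ (2 ^ i) ^ 64 ≤ x) with hR
    have hsub : (range x).filter (fun n : ℕ => ∃ k : ℕ, max kB (2 * K0) ≤ k ∧ 2 * k ≤ n ∧
        ∀ p : ℕ, p.Prime → (p : ZMod q) = a → k < p → ¬ p ∣ n.choose k) ⊆ R.biUnion S := by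
      intro n hn
      rw [mem_filter, mem_range] at hn
      obtain ⟨hnx, k, hk, hkn, hp⟩ := hn
      have hkB : kB ≤ k := (le_max_left _ _).trans hk
      have hkK : 2 * K0 ≤ k := (le_max_right _ _).trans hk
      have hk0 : k ≠ 0 := by omega
      have h64 : k ^ 64 < n := by
        by_contra hcon
        push Not at hcon
        obtain ⟨p, hp1, hp2, hp3, hp4⟩ := hB k hkB n hkn hcon
        exact hp p hp1 hp2 hp3 hp4
      have hle : 2 ^ Nat.log 2 k ≤ k := Nat.pow_log_le_self 2 hk0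
      have hlt : k < 2 ^ (Nat.log 2 k + 1) := Nat.lt_pow_succ_log_self (by norm_num) k
      rw [mem_biUnion]
      refine ⟨Nat.log 2 k, ?_, ?_⟩
      · rw [hR, mem_filter, mem_range]
        refine ⟨?_, ?_, ?_⟩
        · have : Nat.log 2 k ≤ Nat.log 2 x := Nat.log_mono_right (by omega)
          omega
        · rw [pow_succ] at hlt
          omega
        · calc (2 ^ Nat.log 2 k) ^ 64 ≤ k ^ 64 := Nat.pow_le_pow_left hle 64
            _ ≤ x := by omega
      · rw [hS]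
        simp only [mem_filter, mem_range]
        refine ⟨hnx, fun p hp1 hp2 hp3 => ?_⟩
        by_contra hcon
        push Not at hcon
        exact hp p hp1 hp2 (by omega) (dvd_choose hp1 (by omega) (by omega))
    have hcard : ((R.biUnion S).card : ℝ) ≤ (R.card : ℝ) * (x / L ^ (A + 1) + Real.sqrt x) := by
      have h4 : ((R.biUnion S).card : ℝ) ≤ ∑ i ∈ R, ((S i).card : ℝ) := by
        exact_mod_cast Finset.card_biUnion_le
      refine h4.trans ?_
      rw [← nsmul_eq_mul]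
      refine Finset.sum_le_card_nsmul _ _ _ fun i hi => ?_
      have hi' := (mem_filter.1 hi).2
      exact h1 i hi'.1 hi'.2
    have hRcard : (R.card : ℝ) ≤ 3 * L := by
      have h4 : R.card ≤ Nat.log 2 x + 1 := by
        have := Finset.card_filter_le (range (Nat.log 2 x + 1))
          (fun i => K0 ≤ 2 ^ i ∧ (2 ^ i) ^ 64 ≤ x)
        rwa [card_range] at this
      have h5 : (R.card : ℝ) ≤ (Nat.log 2 x : ℝ) + 1 := by exact_mod_cast h4
      have h6 : (Nat.log 2 x : ℝ) * Real.log 2 ≤ L := by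
        have h7 : ((2 ^ Nat.log 2 x : ℕ) : ℝ) ≤ x := by
          exact_mod_cast Nat.pow_log_le_self 2 (by omega)
        have h8 := Real.log_le_log (by positivity) h7
        push_cast at h8
        rwa [Real.log_pow] at h8
      have h9 : (0:ℝ) ≤ (Nat.log 2 x : ℝ) := Nat.cast_nonneg _
      nlinarith
    have hL0 : 0 < L := by linarith
    have hsx : 0 < Real.sqrt x := Real.sqrt_pos.2 (by linarith)
    have hsx2 : Real.sqrt x * Real.sqrt x = x := Real.mul_self_sqrt (by linarith)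
    have hfin : 3 * L * Real.sqrt x ≤ x / L ^ A := by
      rw [div_lt_iff₀ hsx] at h2
      rw [le_div_iff₀ (by positivity)]
      calc 3 * L * Real.sqrt x * L ^ A = 3 * L ^ (A + 1) * Real.sqrt x := by ring
        _ ≤ 3 * (1 / 3 * Real.sqrt x) * Real.sqrt x := by gcongr
        _ = Real.sqrt x * Real.sqrt x := by ring
        _ = x := hsx2
    calc (((range x).filter (fun n : ℕ => ∃ k : ℕ, max kB (2 * K0) ≤ k ∧ 2 * k ≤ n ∧
        ∀ p : ℕ, p.Prime → (p : ZMod q) = a → k < p → ¬ p ∣ n.choose k)).card : ℝ)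
        ≤ ((R.biUnion S).card : ℝ) := by exact_mod_cast Finset.card_le_card hsub
      _ ≤ (R.card : ℝ) * (x / L ^ (A + 1) + Real.sqrt x) := hcard
      _ ≤ (3 * L) * (x / L ^ (A + 1) + Real.sqrt x) := by gcongr
      _ = 3 * (x / L ^ A) + 3 * L * Real.sqrt x := by
        have : L * (x / L ^ (A + 1)) = x / L ^ A := by
          rw [pow_succ]
          field_simp
        rw [mul_add, mul_assoc 3 L, this]
      _ ≤ 4 * (x / L ^ A) := by linarith
      _ ≤ max 4 (Real.log (x0 + 2) ^ A) * (x / L ^ A) := by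
        gcongr
        exact le_max_left _ _

end Pool.Agent.Mos26
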