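import Pool.Agent.Mos26.ExpSum
import Pool.Agent.StableX.Sieve
import Pool.Agent.Lib.ANT.DivSum

/-!
# Upper bound for the number of primes `p` in `(k, K']` with `n/p` close to an integer from below
-/

open Complex Finset Nat ArithmeticFunction BoundingSieve
open scoped ArithmeticFunction.omega

namespace Pool.Agent.Mos26
open Pool.Agent.ANT Pool.Agent.StableX Pool.Agent.Lib.Sieve

/-- The mean square of a Dirichlet kernel over a sequence. -/
lemma fejer_sum (S : Finset ℕ) (x : ℕ → ℝ) (H : ℕ) {ε : ℝ}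
    (hε : ∀ h : ℕ, 1 ≤ h → h < H → ‖∑ m ∈ S, ee (h * x m)‖ ≤ ε) (hε0 : 0 ≤ ε) :
    |∑ m ∈ S, ‖∑ h ∈ range H, ee (h * x m)‖ ^ 2 - H * (S.card : ℝ)| ≤ (H:ℝ) ^ 2 * ε := by
  have h1 : ∀ m ∈ S, ((‖∑ h ∈ range H, ee (h * x m)‖ ^ 2 : ℝ) : ℂ) =
      ∑ h₁ ∈ range H, ∑ h₂ ∈ range H, ee (((h₁:ℝ) - h₂) * x m) := by
    intro m _
    push_cast
    rw [← Complex.mul_conj', map_sum, Finset.sum_mul_sum]
    refine Finset.sum_congr rfl fun h₁ _ => Finset.sum_congr rfl fun h₂ _ => ?_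
    rw [conj_ee, ← ee_add]
    congr 1
    ring
  have h2 : ((∑ m ∈ S, ‖∑ h ∈ range H, ee (h * x m)‖ ^ 2 - H * (S.card : ℝ) : ℝ) : ℂ) =
      ∑ h₁ ∈ range H, ∑ h₂ ∈ range H,
        (if h₁ = h₂ then 0 else ∑ m ∈ S, ee (((h₁:ℝ) - h₂) * x m)) := by
    have h3 : ∀ h₁ ∈ range H, ∑ h₂ ∈ range H, ∑ m ∈ S, ee (((h₁:ℝ) - h₂) * x m) =
        (S.card : ℂ) + ∑ h₂ ∈ range H,
          (if h₁ = h₂ then 0 else ∑ m ∈ S, ee (((h₁:ℝ) - h₂) * x m)) := by
      intro h₁ hh₁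
      rw [← Finset.add_sum_erase _ _ hh₁, ← Finset.add_sum_erase (range H)
        (fun h₂ => if h₁ = h₂ then 0 else ∑ m ∈ S, ee (((h₁:ℝ) - h₂) * x m)) hh₁, if_pos rfl,
        zero_add]
      congr 1
      · simp [ee_zero]
      · refine Finset.sum_congr rfl fun h₂ hh₂ => ?_
        rw [if_neg (Finset.ne_of_mem_erase hh₂).symm]
    rw [Complex.ofReal_sub, Complex.ofReal_sum, Finset.sum_congr rfl h1, Finset.sum_comm]
    have h4 : ∑ h₁ ∈ range H, ∑ m ∈ S, ∑ h₂ ∈ range H, ee (((h₁:ℝ) - h₂) * x m) =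
        ∑ h₁ ∈ range H, ∑ h₂ ∈ range H, ∑ m ∈ S, ee (((h₁:ℝ) - h₂) * x m) :=
      Finset.sum_congr rfl fun h₁ _ => Finset.sum_comm
    rw [h4, Finset.sum_congr rfl h3, Finset.sum_add_distrib, Finset.sum_const, card_range]
    push_cast
    rw [nsmul_eq_mul]
    ring
  rw [← Real.norm_eq_abs, ← Complex.norm_real, h2]
  calc ‖∑ h₁ ∈ range H, ∑ h₂ ∈ range H,
        (if h₁ = h₂ then 0 else ∑ m ∈ S, ee (((h₁:ℝ) - h₂) * x m))‖
      ≤ ∑ h₁ ∈ range H, ∑ h₂ ∈ range H,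
        ‖(if h₁ = h₂ then 0 else ∑ m ∈ S, ee (((h₁:ℝ) - h₂) * x m))‖ :=
        (norm_sum_le _ _).trans (Finset.sum_le_sum fun _ _ => norm_sum_le _ _)
    _ ≤ ∑ h₁ ∈ range H, ∑ h₂ ∈ range H, ε := by
        refine Finset.sum_le_sum fun h₁ hh₁ => Finset.sum_le_sum fun h₂ hh₂ => ?_
        have hh₁' := mem_range.1 hh₁
        have hh₂' := mem_range.1 hh₂
        split_ifs with h
        · rw [norm_zero]; exact hε0
        · rcases lt_or_gt_of_ne h with hlt | hgt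
          · have e1 : ∑ m ∈ S, ee (((h₁:ℝ) - h₂) * x m) =
                (starRingEnd ℂ) (∑ m ∈ S, ee (((h₂ - h₁ : ℕ) : ℝ) * x m)) := by
              rw [map_sum]
              refine Finset.sum_congr rfl fun m _ => ?_
              rw [conj_ee]
              congr 1
              rw [Nat.cast_sub hlt.le]
              ring
            rw [e1, RCLike.norm_conj]
            exact hε _ (by omega) (by omega)
          · have e1 : ∑ m ∈ S, ee (((h₁:ℝ) - h₂) * x m) =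
                ∑ m ∈ S, ee (((h₁ - h₂ : ℕ) : ℝ) * x m) := by
              refine Finset.sum_congr rfl fun m _ => ?_
              rw [Nat.cast_sub (le_of_lt hgt)]
            rw [e1]
            exact hε _ (by omega) (by omega)
    _ = (H:ℝ) ^ 2 * ε := by
        rw [Finset.sum_const, Finset.sum_const, card_range, nsmul_eq_mul, nsmul_eq_mul]
        ring

/-- The kernel is large near integers. -/
lemma fejer_ge {H : ℕ} (hH : 0 < H) {x : ℝ} {N : ℤ} (h0 : |x - N| ≤ 1 / (16 * H)) :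
    1 ≤ 2 / (H:ℝ) ^ 2 * ‖∑ h ∈ range H, ee (h * x)‖ ^ 2 := by
  have hHR : (0:ℝ) < H := by exact_mod_cast hH
  have h1 : ∀ h ∈ range H, (7 / 8 : ℝ) ≤ (ee (h * x)).re := by
    intro h hh
    have hhH : (h:ℝ) ≤ H := by exact_mod_cast (mem_range.1 hh).le
    have e1 : ee (h * x) = ee (h * (x - N)) := by
      have : (h:ℝ) * x = h * (x - N) + ((h * N : ℤ) : ℝ) := by
        push_cast
        ring
      rw [this, ee_add_int]
    rw [e1]
    have e2 : (ee (h * (x - N))).re = Real.cos (2 * Real.pi * (h * (x - N))) := by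
      unfold ee
      rw [mul_comm, Complex.exp_ofReal_mul_I_re]
    rw [e2]
    have h2 := Real.one_sub_sq_div_two_le_cos (x := 2 * Real.pi * (h * (x - N)))
    have h3 : |2 * Real.pi * (h * (x - N))| ≤ 1 / 2 := by
      rw [abs_mul, abs_mul, abs_mul, abs_two, abs_of_pos Real.pi_pos,
        abs_of_nonneg (Nat.cast_nonneg h)]
      have hπ : Real.pi ≤ 4 := Real.pi_le_four
      calc 2 * Real.pi * (h * |x - N|) ≤ 2 * 4 * (H * (1 / (16 * H))) := by gcongr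
        _ = 1 / 2 := by field_simp; norm_num
    have h4 : (2 * Real.pi * (h * (x - N))) ^ 2 ≤ 1 / 4 := by
      rw [← sq_abs]
      calc |2 * Real.pi * (h * (x - N))| ^ 2 ≤ (1 / 2) ^ 2 := by gcongr
        _ = 1 / 4 := by norm_num
    linarith
  have h2 : 7 / 8 * (H:ℝ) ≤ ‖∑ h ∈ range H, ee (h * x)‖ := by
    calc 7 / 8 * (H:ℝ) = ∑ h ∈ range H, (7 / 8 : ℝ) := by
          rw [Finset.sum_const, card_range, nsmul_eq_mul]
          ring
      _ ≤ ∑ h ∈ range H, (ee (h * x)).re := Finset.sum_le_sum h1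
      _ = (∑ h ∈ range H, ee (h * x)).re := by rw [Complex.re_sum]
      _ ≤ _ := Complex.re_le_norm _
  have h3 : (7 / 8 * (H:ℝ)) ^ 2 ≤ ‖∑ h ∈ range H, ee (h * x)‖ ^ 2 := by gcongr
  calc (1:ℝ) ≤ 2 / (H:ℝ) ^ 2 * (7 / 8 * (H:ℝ)) ^ 2 := by
        rw [mul_pow]
        field_simp
        norm_num
    _ ≤ _ := by gcongr

/-- Multiples of `d` in an interval. -/
lemma sum_multiples (k K' d : ℕ) (hd : 0 < d) (w : ℕ → ℝ) :
    (∑ m ∈ Ioc k K', if d ∣ m then w m else 0) = ∑ m ∈ Ioc (k / d) (K' / d), w (d * m) := by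
  rw [← Finset.sum_filter]
  symm
  refine Finset.sum_bij (fun m _ => d * m) ?_ ?_ ?_ ?_
  · intro m hm
    rw [mem_Ioc] at hm
    rw [mem_filter, mem_Ioc]
    refine ⟨⟨?_, ?_⟩, dvd_mul_right _ _⟩
    · rw [mul_comm]; exact (Nat.div_lt_iff_lt_mul hd).1 hm.1
    · rw [mul_comm]; exact (Nat.le_div_iff_mul_le hd).1 hm.2
  · intro a _ b _ hab
    exact Nat.eq_of_mul_eq_mul_left hd hab
  · intro m hm
    rw [mem_filter, mem_Ioc] at hm
    obtain ⟨⟨h1, h2⟩, c, rfl⟩ := hm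
    refine ⟨c, ?_, rfl⟩
    rw [mem_Ioc]
    exact ⟨(Nat.div_lt_iff_lt_mul hd).2 (by rwa [mul_comm]),
      (Nat.le_div_iff_mul_le hd).2 (by rwa [mul_comm])⟩
  · intro _ _
    rfl

lemma three_pow_le_tau {d : ℕ} (hd : Squarefree d) : (3 : ℝ) ^ ω d ≤ tauR d ^ 2 := by
  have h1 : tauR d = 2 ^ d.primeFactors.card := by
    unfold tauR
    rw [Nat.card_divisors hd.ne_zero, Finset.prod_congr rfl (g := fun _ => 2)]
    · rw [Finset.prod_const]; push_cast; rfl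
    · intro p hp
      rw [Nat.factorization_eq_one_of_squarefree hd (Nat.prime_of_mem_primeFactors hp)
        (Nat.dvd_of_mem_primeFactors hp)]
  have h2 : ω d = d.primeFactors.card := by
    rw [ArithmeticFunction.cardDistinctFactors_apply, ← List.card_toFinset]
    rfl
  rw [h1, h2, ← pow_mul, mul_comm, pow_mul]
  exact pow_le_pow_left₀ (by norm_num) (by norm_num) _

open Classical in
/-- **Weighted upper bound sieve.** -/
theorem weighted_upper (k K' T n H : ℕ) (hT : 1 ≤ T) (hTk : T ≤ k) (hkK : k ≤ K') (hH : 0 < H)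
    (ε : ℕ → ℝ) (hε0 : ∀ d, 0 ≤ ε d)
    (hε : ∀ d : ℕ, 1 ≤ d → d ≤ T ^ 2 → ∀ h : ℕ, 1 ≤ h → h < H →
      ‖∑ m ∈ Ioc (k / d) (K' / d), ee (h * ((n:ℝ) / ((d * m : ℕ) : ℝ)))‖ ≤ ε d) :
    (((Ioc k K').filter (fun p : ℕ => p.Prime ∧ ∃ N : ℤ, |(n:ℝ) / p - N| ≤ 1 / (16 * H))).card : ℝ)
      ≤ 2 / H * ((K':ℝ) - k) / G T 1 + ∑ d ∈ Ioc 0 (T ^ 2), tauR d ^ 2 * (2 * ε d + 2 / H) := by
  have hHR : (0:ℝ) < H := by exact_mod_cast hH
  have hT1 : (1:ℝ) ≤ T := by exact_mod_cast hT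
  have hPf := primeFactors_PQ T 1
  have hsq := squarefree_PQ T 1
  have hP0 : PQ T 1 ≠ 0 := hsq.ne_zero
  set w : ℕ → ℝ := fun m => 2 / (H:ℝ) ^ 2 * ‖∑ h ∈ range H, ee (h * ((n:ℝ) / m))‖ ^ 2 with hw
  have hw0 : ∀ m, 0 ≤ w m := fun m => by positivity
  let nu : ArithmeticFunction ℝ := ArithmeticFunction.prodPrimeFactors (fun p => 1 / (p:ℝ))
  have hnu : nu.IsMultiplicative := IsMultiplicative.prodPrimeFactors _
  have hnu_apply : ∀ d : ℕ, d ≠ 0 → nu d = ∏ p ∈ d.primeFactors, 1 / (p:ℝ) := fun d hd =>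
    ArithmeticFunction.prodPrimeFactors_apply hd
  have hnu_prime : ∀ p : ℕ, p.Prime → nu p = 1 / (p:ℝ) := by
    intro p hp
    rw [hnu_apply p hp.ne_zero, hp.primeFactors, Finset.prod_singleton]
  have hnu_sq : ∀ d : ℕ, Squarefree d → nu d = 1 / (d:ℝ) := by
    intro d hd
    rw [hnu_apply d hd.ne_zero, Finset.prod_div_distrib, Finset.prod_const_one]
    rw [← Nat.cast_prod, Nat.prod_primeFactors_of_squarefree hd]
  let s : BoundingSieve :=
    { support := Ioc k K'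
      prodPrimes := PQ T 1
      prodPrimes_squarefree := hsq
      weights := w
      weights_nonneg := hw0
      totalMass := 2 / H * ((K':ℝ) - k)
      nu := nu
      nu_mult := hnu
      nu_pos_of_prime := fun p hp _ => by
        rw [hnu_prime p hp]
        have : (0:ℝ) < p := by exact_mod_cast hp.pos
        positivity
      nu_lt_one_of_prime := fun p hp _ => by
        rw [hnu_prime p hp]
        have : (1:ℝ) < p := by exact_mod_cast hp.one_lt
        rw [div_lt_one (by linarith)]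
        exact this }
  have hy : (1 : ℝ) ≤ (T : ℝ) ^ 2 := one_le_pow₀ hT1
  have h1 := selberg_bound s ((T:ℝ) ^ 2) hy
  -- the sifted sum
  have h2 : (((Ioc k K').filter (fun p : ℕ => p.Prime ∧
      ∃ N : ℤ, |(n:ℝ) / p - N| ≤ 1 / (16 * H))).card : ℝ) ≤ siftedSum (s := s) := by
    unfold siftedSum
    change _ ≤ ∑ d ∈ Ioc k K', if Nat.Coprime (PQ T 1) d then w d else 0
    rw [Finset.card_eq_sum_ones, Nat.cast_sum, Finset.sum_filter]
    refine Finset.sum_le_sum fun p hp => ?_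
    have hpk := (mem_Ioc.1 hp).1
    by_cases hcond : p.Prime ∧ ∃ N : ℤ, |(n:ℝ) / p - N| ≤ 1 / (16 * H)
    · obtain ⟨hpp, N, hN⟩ := hcond
      rw [if_pos ⟨hpp, N, hN⟩, if_pos]
      · push_cast
        exact fejer_ge hH hN
      · rw [Nat.coprime_comm, Nat.Prime.coprime_iff_not_dvd hpp]
        intro hdvd
        have hmem : p ∈ (PQ T 1).primeFactors := Nat.mem_primeFactors.2 ⟨hpp, hdvd, hP0⟩
        rw [hPf, mem_PP] at hmem
        omega
    · rw [if_neg hcond]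
      split_ifs
      · exact hw0 p
      · exact le_rfl
  -- the bounding sum
  have h3 : boundingG s ((T:ℝ) ^ 2) = G T 1 := by
    unfold boundingG G
    refine Finset.sum_congr rfl fun l hl => ?_
    have hl' : l ∈ (PQ T 1).divisors := hl
    have hlP := (Nat.mem_divisors.1 hl').1
    congr 1
    rw [selbergTerms_apply]
    have h6 : s.nu l = ∏ p ∈ l.primeFactors, 1 / (p:ℝ) :=
      hnu_apply l (ne_zero_of_dvd_ne_zero hP0 hlP)
    rw [h6, ← Finset.prod_mul_distrib]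
    refine Finset.prod_congr rfl fun p hp => ?_
    have hpp := Nat.prime_of_mem_primeFactors hp
    have h7 : s.nu p = 1 / (p:ℝ) := hnu_prime p hpp
    have hp1 : (1:ℝ) < p := by exact_mod_cast hpp.one_lt
    have hp0 : (0:ℝ) < p := by linarith
    have hp2 : (p:ℝ) - 1 ≠ 0 := by linarith
    rw [h7]
    field_simp
  -- the remainders
  have h4 : ∀ d ∈ (PQ T 1).divisors, (d:ℝ) ≤ (T:ℝ) ^ 2 →
      |rem (s := s) d| ≤ 2 * ε d + 2 / H := by
    intro d hd hdT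
    have hdP := (Nat.mem_divisors.1 hd).1
    have hd0 : 0 < d := Nat.pos_of_mem_divisors hd
    have hdR : (0:ℝ) < d := by exact_mod_cast hd0
    have hdT' : d ≤ T ^ 2 := by exact_mod_cast hdT
    unfold rem multSum
    change |(∑ m ∈ Ioc k K', if d ∣ m then w m else 0) - nu d * (2 / H * ((K':ℝ) - k))| ≤ _
    rw [hnu_sq d (hsq.squarefree_of_dvd hdP), sum_multiples k K' d hd0 w]
    have h5 := fejer_sum (Ioc (k / d) (K' / d)) (fun m => (n:ℝ) / ((d * m : ℕ) : ℝ)) H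
      (fun h hh1 hh2 => hε d hd0 hdT' h hh1 hh2) (hε0 d)
    rw [Nat.card_Ioc] at h5
    have hcard : |((K' / d - k / d : ℕ) : ℝ) - ((K':ℝ) - k) / d| ≤ 1 := by
      rw [Nat.cast_sub (Nat.div_le_div_right hkK)]
      have a1 : ((K' / d : ℕ) : ℝ) ≤ K' / d := Nat.cast_div_le
      have a2 : ((k / d : ℕ) : ℝ) ≤ k / d := Nat.cast_div_le
      have a3 : (K':ℝ) / d < ((K' / d : ℕ) : ℝ) + 1 := by
        rw [div_lt_iff₀ hdR]
        exact_mod_cast Nat.lt_mul_of_div_lt (Nat.lt_succ_self _) hd0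
      have a4 : (k:ℝ) / d < ((k / d : ℕ) : ℝ) + 1 := by
        rw [div_lt_iff₀ hdR]
        exact_mod_cast Nat.lt_mul_of_div_lt (Nat.lt_succ_self _) hd0
      rw [abs_le, sub_div]
      constructor <;> linarith
    have e1 : ∑ m ∈ Ioc (k / d) (K' / d), w (d * m) = 2 / (H:ℝ) ^ 2 *
        ∑ m ∈ Ioc (k / d) (K' / d), ‖∑ h ∈ range H, ee (h * ((n:ℝ) / ((d * m : ℕ) : ℝ)))‖ ^ 2 := by
      rw [Finset.mul_sum]
    rw [e1]
    set A : ℝ := ∑ m ∈ Ioc (k / d) (K' / d),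
      ‖∑ h ∈ range H, ee (h * ((n:ℝ) / ((d * m : ℕ) : ℝ)))‖ ^ 2 with hA
    set N : ℝ := ((K' / d - k / d : ℕ) : ℝ) with hN
    have e2 : 2 / (H:ℝ) ^ 2 * A - 1 / (d:ℝ) * (2 / H * ((K':ℝ) - k)) =
        2 / (H:ℝ) ^ 2 * (A - H * N) + 2 / H * (N - ((K':ℝ) - k) / d) := by
      field_simp
      ring
    rw [e2]
    refine (abs_add_le _ _).trans ?_
    rw [abs_mul, abs_mul, abs_of_pos (by positivity : (0:ℝ) < 2 / (H:ℝ) ^ 2),
      abs_of_pos (by positivity : (0:ℝ) < 2 / (H:ℝ))]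
    calc 2 / (H:ℝ) ^ 2 * |A - H * N| + 2 / H * |N - ((K':ℝ) - k) / d|
        ≤ 2 / (H:ℝ) ^ 2 * ((H:ℝ) ^ 2 * ε d) + 2 / H * 1 := by gcongr
      _ = 2 * ε d + 2 / H := by field_simp
  -- conclusion
  refine h2.trans (h1.trans ?_)
  rw [h3]
  refine add_le_add (le_of_eq rfl) ?_
  change (∑ d ∈ (PQ T 1).divisors, if (d : ℝ) ≤ (T:ℝ) ^ 2 then
    (3 : ℝ) ^ ω d * |rem (s := s) d| else 0) ≤ _
  rw [← Finset.sum_filter]
  calc ∑ d ∈ (PQ T 1).divisors.filter (fun d : ℕ => (d:ℝ) ≤ (T:ℝ) ^ 2),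
        (3 : ℝ) ^ ω d * |rem (s := s) d|
      ≤ ∑ d ∈ (PQ T 1).divisors.filter (fun d : ℕ => (d:ℝ) ≤ (T:ℝ) ^ 2),
        tauR d ^ 2 * (2 * ε d + 2 / H) := by
        refine Finset.sum_le_sum fun d hd => ?_
        obtain ⟨hd1, hd2⟩ := mem_filter.1 hd
        have hdP := (Nat.mem_divisors.1 hd1).1
        exact mul_le_mul (three_pow_le_tau (hsq.squarefree_of_dvd hdP)) (h4 d hd1 hd2)
          (abs_nonneg _) (by positivity)
    _ ≤ ∑ d ∈ Ioc 0 (T ^ 2), tauR d ^ 2 * (2 * ε d + 2 / H) := by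
        refine Finset.sum_le_sum_of_subset_of_nonneg ?_ fun d _ _ => ?_
        · intro d hd
          obtain ⟨hd1, hd2⟩ := mem_filter.1 hd
          rw [mem_Ioc]
          exact ⟨Nat.pos_of_mem_divisors hd1, by exact_mod_cast hd2⟩
        · have := hε0 d
          positivity

end Pool.Agent.Mos26
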